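import Mathlib

namespace Pool.Agent.H.MP_296aa8_al
open Set Topology

section
variable {W W' W'' : Type} [AddCommGroup W] [Module ℂ W] [AddCommGroup W'] [Module ℂ W']
  [AddCommGroup W''] [Module ℂ W'']

/-- polynomial functions on a complex vector space -/
def Pol (W : Type) [AddCommGroup W] [Module ℂ W] : Subalgebra ℂ (W → ℂ) :=
  Algebra.adjoin ℂ (Set.range fun l : W →ₗ[ℂ] ℂ => (l : W → ℂ))

def PMap (F : W → W') : Prop := ∀ l : W' →ₗ[ℂ] ℂ, (fun w => l (F w)) ∈ Pol W

lemma Pol.lin (l : W →ₗ[ℂ] ℂ) : (fun w => l w) ∈ Pol W := Algebra.subset_adjoin ⟨l, rfl⟩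

lemma Pol.const (c : ℂ) : (fun _ : W => c) ∈ Pol W := (Pol W).algebraMap_mem c

lemma Pol.add {f g : W → ℂ} (hf : f ∈ Pol W) (hg : g ∈ Pol W) : (fun w => f w + g w) ∈ Pol W :=
  (Pol W).add_mem hf hg

lemma Pol.sub {f g : W → ℂ} (hf : f ∈ Pol W) (hg : g ∈ Pol W) : (fun w => f w - g w) ∈ Pol W :=
  (Pol W).sub_mem hf hg

lemma Pol.mul {f g : W → ℂ} (hf : f ∈ Pol W) (hg : g ∈ Pol W) : (fun w => f w * g w) ∈ Pol W :=
  (Pol W).mul_mem hf hg

lemma Pol.sum {ι : Type} (s : Finset ι) {f : ι → W → ℂ} (hf : ∀ i, f i ∈ Pol W) :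
    (fun w => ∑ i ∈ s, f i w) ∈ Pol W := by
  have : (fun w => ∑ i ∈ s, f i w) = ∑ i ∈ s, f i := by ext w; simp
  rw [this]; exact (Pol W).sum_mem fun i _ => hf i

lemma Pol.prod {ι : Type} (s : Finset ι) {f : ι → W → ℂ} (hf : ∀ i, f i ∈ Pol W) :
    (fun w => ∏ i ∈ s, f i w) ∈ Pol W := by
  have : (fun w => ∏ i ∈ s, f i w) = ∏ i ∈ s, f i := by ext w; simp
  rw [this]; exact (Pol W).prod_mem fun i _ => hf i

lemma Pol.comp {F : W → W'} (hF : PMap F) {f : W' → ℂ} (hf : f ∈ Pol W') :
    (fun w => f (F w)) ∈ Pol W := by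
  induction hf using Algebra.adjoin_induction with
  | mem x hx => obtain ⟨l, rfl⟩ := hx; exact hF l
  | algebraMap r => exact Pol.const r
  | add x y _ _ hx hy => exact Pol.add hx hy
  | mul x y _ _ hx hy => exact Pol.mul hx hy

lemma Pol.eval {σ : Type} {f : σ → W → ℂ} (hf : ∀ i, f i ∈ Pol W) (p : MvPolynomial σ ℂ) :
    (fun w => MvPolynomial.eval (fun i => f i w) p) ∈ Pol W := by
  induction p using MvPolynomial.induction_on with
  | C a => simpa using Pol.const a
  | add p q hp hq => simpa using Pol.add hp hq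
  | mul_X p i hp => simpa using Pol.mul hp (hf i)

lemma PMap.lin (L : W →ₗ[ℂ] W') : PMap (fun w => L w) := fun l => Pol.lin (l ∘ₗ L)

lemma PMap.comp {F : W → W'} {G : W' → W''} (hG : PMap G) (hF : PMap F) :
    PMap (fun w => G (F w)) := fun l => Pol.comp hF (hG l)

lemma PMap.const (c : W') : PMap (fun _ : W => c) := fun l => Pol.const _

lemma PMap.prod {F : W → W'} {G : W → W''} (hF : PMap F) (hG : PMap G) :
    PMap (fun w => (F w, G w)) := by
  intro l
  have : (fun w => l (F w, G w)) =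
      fun w => (l ∘ₗ LinearMap.inl ℂ W' W'') (F w) + (l ∘ₗ LinearMap.inr ℂ W' W'') (G w) := by
    ext w; simp [← map_add]
  rw [this]; exact Pol.add (hF _) (hG _)

lemma PMap.fst {F : W → W' × W''} (hF : PMap F) : PMap (fun w => (F w).1) :=
  (PMap.lin (LinearMap.fst ℂ W' W'')).comp hF

lemma PMap.snd {F : W → W' × W''} (hF : PMap F) : PMap (fun w => (F w).2) :=
  (PMap.lin (LinearMap.snd ℂ W' W'')).comp hF

lemma PMap.id : PMap (fun w : W => w) := PMap.lin LinearMap.id

lemma PMap.pol {f : W → ℂ} (hf : PMap f) : f ∈ Pol W := hf LinearMap.id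

lemma PMap.entry {a b : Type} {F : W → Matrix a b ℂ} (hF : PMap F) (i : a) (j : b) :
    (fun w => F w i j) ∈ Pol W := hF (Matrix.entryLinearMap ℂ ℂ i j)

lemma PMap.matrix {a b : Type} [Fintype a] [Fintype b] {F : W → Matrix a b ℂ}
    (hF : ∀ i j, (fun w => F w i j) ∈ Pol W) : PMap F := by
  classical
  intro l
  have : (fun w => l (F w)) =
      fun w => ∑ i, ∑ j, F w i j * l (Matrix.single i j 1) := by
    ext w
    conv_lhs => rw [Matrix.matrix_eq_sum_single (F w)]
    simp only [map_sum]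
    refine Finset.sum_congr rfl fun i _ => Finset.sum_congr rfl fun j _ => ?_
    rw [← smul_eq_mul, ← map_smul, Matrix.smul_single, smul_eq_mul, mul_one]
  rw [this]
  exact Pol.sum _ fun i => Pol.sum _ fun j => Pol.mul (hF i j) (Pol.const _)

lemma PMap.mul {a b c : Type} [Fintype a] [Fintype b] [Fintype c] {F : W → Matrix a b ℂ}
    {G : W → Matrix b c ℂ} (hF : PMap F) (hG : PMap G) : PMap (fun w => F w * G w) :=
  PMap.matrix fun i j => by
    simp only [Matrix.mul_apply]
    exact Pol.sum _ fun k => Pol.mul (hF.entry i k) (hG.entry k j)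

lemma PMap.det {a : Type} [Fintype a] [DecidableEq a] {F : W → Matrix a a ℂ} (hF : PMap F) :
    (fun w => (F w).det) ∈ Pol W := by
  simp only [Matrix.det_apply']
  exact Pol.sum _ fun σ => Pol.mul (Pol.const _) (Pol.prod _ fun i => hF.entry _ _)

/-- algebraic subsets -/
def IsAlg (Z : Set W) : Prop := ∃ S : Set (W → ℂ), (∀ f ∈ S, f ∈ Pol W) ∧ Z = {w | ∀ f ∈ S, f w = 0}

lemma IsAlg.zero {f : W → ℂ} (hf : f ∈ Pol W) : IsAlg {w | f w = 0} :=
  ⟨{f}, by simpa, by simp⟩

lemma IsAlg.eq {f g : W → ℂ} (hf : f ∈ Pol W) (hg : g ∈ Pol W) : IsAlg {w | f w = g w} := by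
  have := IsAlg.zero (Pol.sub hf hg)
  simpa only [sub_eq_zero] using this

lemma IsAlg.all {ι : Sort*} {P : ι → W → Prop} (h : ∀ i, IsAlg {w | P i w}) :
    IsAlg {w | ∀ i, P i w} := by
  choose S hS hZ using h
  refine ⟨⋃ i, S i, fun f hf => ?_, ?_⟩
  · obtain ⟨i, hi⟩ := mem_iUnion.1 hf; exact hS i f hi
  · ext w
    simp only [mem_setOf_eq, mem_iUnion]
    constructor
    · rintro h f ⟨i, hi⟩
      have : w ∈ {w | P i w} := h i
      rw [hZ i] at this; exact this f hi
    · intro h i
      have : w ∈ {w | P i w} := by rw [hZ i]; exact fun f hf => h f ⟨i, hf⟩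
      exact this

lemma IsAlg.and {P Q : W → Prop} (hP : IsAlg {w | P w}) (hQ : IsAlg {w | Q w}) :
    IsAlg {w | P w ∧ Q w} := by
  have := IsAlg.all (P := fun b : Bool => fun w => bif b then P w else Q w)
    (fun b => by cases b <;> simpa)
  have e : {w | P w ∧ Q w} = {w | ∀ b : Bool, bif b then P w else Q w} := by
    ext w; simp [and_comm]
  rw [e]; exact this

lemma IsAlg.meq {a b : Type} {F G : W → Matrix a b ℂ} (hF : PMap F) (hG : PMap G) :
    IsAlg {w | F w = G w} := by
  have := IsAlg.all fun i => IsAlg.all fun j => IsAlg.eq (hF.entry i j) (hG.entry i j)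
  simpa only [Matrix.ext_iff] using this

lemma exists_poly {α : Type} [Fintype α] (b : Module.Basis α ℂ W) {f : W → ℂ} (hf : f ∈ Pol W) :
    ∃ p : MvPolynomial α ℂ, ∀ w, f w = MvPolynomial.aeval (fun i => b.repr w i) p := by
  induction hf using Algebra.adjoin_induction with
  | mem x hx =>
    obtain ⟨l, rfl⟩ := hx
    refine ⟨∑ i, MvPolynomial.X i * MvPolynomial.C (l (b i)), fun w => ?_⟩
    have : l w = ∑ i, b.repr w i * l (b i) := by
      conv_lhs => rw [← b.sum_repr w]
      simp only [map_sum, map_smul, smul_eq_mul]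
    simpa using this
  | algebraMap r => exact ⟨MvPolynomial.C r, fun w => by simp⟩
  | add x y _ _ hx hy =>
    obtain ⟨p, hp⟩ := hx; obtain ⟨q, hq⟩ := hy
    exact ⟨p + q, fun w => by simp [hp, hq]⟩
  | mul x y _ _ hx hy =>
    obtain ⟨p, hp⟩ := hx; obtain ⟨q, hq⟩ := hy
    exact ⟨p * q, fun w => by simp [hp, hq]⟩

end

lemma dense_frontier {X M : Type} [TopologicalSpace X] [TopologicalSpace M] {ι : M → X}
    (hι : Continuous ι) {s : Set X} (hs : IsConstructible s) : Dense (frontier (ι ⁻¹' s))ᶜ := by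
  induction hs using IsConstructible.empty_union_induction with
  | open_retrocompact U hU _ =>
    rw [← interior_eq_empty_iff_dense_compl, ← frontier_compl]
    exact interior_frontier (hU.preimage hι).isClosed_compl
  | union s _ t _ hs ht =>
    refine (hs.inter_of_isOpen_left ht isClosed_frontier.isOpen_compl).mono ?_
    rw [← compl_union, compl_subset_compl, preimage_union]
    exact (frontier_union_subset _ _).trans
      (union_subset_union inter_subset_left inter_subset_right)
  | compl s _ hs => rwa [preimage_compl, frontier_compl]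

noncomputable def pt {β : Type} (y : β → ℂ) : PrimeSpectrum (MvPolynomial β ℂ) :=
  ⟨MvPolynomial.vanishingIdeal ℂ {y}, inferInstance⟩

lemma mem_pt {β : Type} (y : β → ℂ) (p : MvPolynomial β ℂ) :
    p ∈ (pt y).asIdeal ↔ MvPolynomial.aeval y p = 0 :=
  MvPolynomial.mem_vanishingIdeal_singleton_iff y p

lemma continuous_pt {β : Type} : Continuous (pt : (β → ℂ) → _) := by
  refine continuous_iff_isClosed.2 fun s hs => ?_
  obtain ⟨T, rfl⟩ := (PrimeSpectrum.isClosed_iff_zeroLocus s).1 hs
  have : pt ⁻¹' PrimeSpectrum.zeroLocus T = ⋂ p ∈ T, {y : β → ℂ | MvPolynomial.eval y p = 0} := by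
    ext y
    simp only [mem_preimage, PrimeSpectrum.mem_zeroLocus, mem_iInter, mem_setOf_eq]
    exact ⟨fun h p hp => by simpa [MvPolynomial.coe_aeval_eq_eval] using (mem_pt y p).1 (h hp),
      fun h p hp => (mem_pt y p).2 (by simpa [MvPolynomial.coe_aeval_eq_eval] using h p hp)⟩
  rw [this]
  exact isClosed_biInter fun p _ => isClosed_eq p.continuous_eval continuous_const

section top
variable {W W' : Type} [AddCommGroup W] [Module ℂ W] [AddCommGroup W'] [Module ℂ W']
  [FiniteDimensional ℂ W] [FiniteDimensional ℂ W']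
  [TopologicalSpace W'] [IsTopologicalAddGroup W'] [ContinuousSMul ℂ W'] [T2Space W']

lemma chevalley {Z : Set W} (hZ : IsAlg Z) {F : W → W'} (hF : PMap F)
    {M : Type} [TopologicalSpace M] {ι : M → W'} (hι : Continuous ι) :
    Dense (frontier (ι ⁻¹' (F '' Z)))ᶜ := by
  obtain ⟨S, hS, rfl⟩ := hZ
  let b := Module.finBasis ℂ W
  let b' := Module.finBasis ℂ W'
  choose p hp using fun f : S => exists_poly b (hS f f.2)
  choose q hq using fun j => exists_poly b (hF (b'.coord j))
  let φ : MvPolynomial _ ℂ →ₐ[ℂ] MvPolynomial _ ℂ := MvPolynomial.aeval q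
  have hφ : φ.toRingHom.FinitePresentation := by
    rw [← RingHom.FinitePresentation.of_finiteType]
    have : φ.FiniteType := by
      refine AlgHom.FiniteType.of_comp_finiteType (f := Algebra.ofId ℂ _) ?_
      rw [Subsingleton.elim (φ.comp (Algebra.ofId ℂ _)) (Algebra.ofId ℂ _)]
      exact RingHom.finiteType_algebraMap.2 inferInstance
    exact this
  have hc : IsConstructible (PrimeSpectrum.zeroLocus (range p)) := by
    refine IsConstructible.of_compl ?_
    exact (TopologicalSpace.NoetherianSpace.isCompact _).isConstructible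
      (PrimeSpectrum.isClosed_zeroLocus _).isOpen_compl
  have h1 := PrimeSpectrum.isConstructible_comap_image hφ hc
  have hco : Continuous fun m => pt (fun j => b'.repr (ι m) j) := by
    refine continuous_pt.comp (continuous_pi fun j => ?_)
    exact (b'.coord j).continuous_of_finiteDimensional.comp hι
  have h2 := dense_frontier hco h1
  have hev : ∀ w r, MvPolynomial.aeval (fun i => b.repr w i) (φ r) =
      MvPolynomial.aeval (fun j => b'.repr (F w) j) r := by
    intro w r
    have : (fun j => b'.repr (F w) j) = fun j => MvPolynomial.aeval (fun i => b.repr w i) (q j) := by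
      ext j; rw [← hq j w]; simp
    rw [this, ← AlgHom.comp_apply, MvPolynomial.comp_aeval]
  have e : ι ⁻¹' (F '' {w | ∀ f ∈ S, f w = 0}) = (fun m => pt (fun j => b'.repr (ι m) j)) ⁻¹'
      (PrimeSpectrum.comap φ.toRingHom ''
        PrimeSpectrum.zeroLocus (range p)) := by
    ext m
    simp only [mem_preimage, mem_image, mem_setOf_eq]
    constructor
    · rintro ⟨w, hw, hm⟩
      refine ⟨pt (fun i => b.repr w i), ?_, ?_⟩
      · rw [PrimeSpectrum.mem_zeroLocus]
        rintro _ ⟨f, rfl⟩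
        exact (mem_pt _ _).2 (by rw [← hp f w]; exact hw f f.2)
      · ext r
        rw [PrimeSpectrum.comap_asIdeal, Ideal.mem_comap, mem_pt, mem_pt, ← hm, ← hev]; rfl
    · rintro ⟨P, hP, hm⟩
      obtain ⟨I, hI, hPI⟩ := P.asIdeal.exists_le_maximal P.2.ne_top
      obtain ⟨x, rfl⟩ := MvPolynomial.isMaximal_iff_eq_vanishingIdeal_singleton.1 hI
      have hx : (fun i => b.repr (b.equivFun.symm x) i) = x := by
        ext i; simp [Module.Basis.equivFun_symm_apply, Finsupp.single_apply]
      refine ⟨b.equivFun.symm x, fun f hf => ?_, ?_⟩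
      · refine (hp ⟨f, hf⟩ _).trans ?_
        rw [hx]
        exact (MvPolynomial.mem_vanishingIdeal_singleton_iff _ _).1
          (hPI ((PrimeSpectrum.mem_zeroLocus _ _).1 hP ⟨_, rfl⟩))
      · refine b'.ext_elem fun j => ?_
        have h3 : MvPolynomial.X j - MvPolynomial.C (b'.repr (ι m) j) ∈
            (pt (fun j => b'.repr (ι m) j)).asIdeal := by rw [mem_pt]; simp
        rw [← hm, PrimeSpectrum.comap_asIdeal, Ideal.mem_comap] at h3
        have h4 := (MvPolynomial.mem_vanishingIdeal_singleton_iff _ _).1 (hPI h3)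
        rw [← hx] at h4
        have h5 := hev (b.equivFun.symm x) (MvPolynomial.X j - MvPolynomial.C (b'.repr (ι m) j))
        have h6 : MvPolynomial.aeval (fun j => b'.repr (F (b.equivFun.symm x)) j)
            (MvPolynomial.X j - MvPolynomial.C (b'.repr (ι m) j)) = 0 := h5 ▸ h4
        simpa [sub_eq_zero] using h6
  rw [e]; exact h2

omit [FiniteDimensional ℂ W] in
lemma Pol.continuous {f : W' → ℂ} (hf : f ∈ Pol W') : Continuous f := by
  induction hf using Algebra.adjoin_induction with
  | mem x hx => obtain ⟨l, rfl⟩ := hx; exact l.continuous_of_finiteDimensional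
  | algebraMap r => exact continuous_const
  | add x y _ _ hx hy => exact hx.add hy
  | mul x y _ _ hx hy => exact hx.mul hy

omit [FiniteDimensional ℂ W] in
lemma IsAlg.isClosed {Z : Set W'} (hZ : IsAlg Z) : IsClosed Z := by
  obtain ⟨S, hS, rfl⟩ := hZ
  have : {w | ∀ f ∈ S, f w = 0} = ⋂ f ∈ S, {w : W' | f w = 0} := by ext; simp
  rw [this]
  exact isClosed_biInter fun f hf => isClosed_eq (Pol.continuous (hS f hf)) continuous_const

end top

end Pool.Agent.H.MP_296aa8_al
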