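import Mathlib

namespace Pool.Agent.H.MP_296aa8_al
open Set Topology

def DC {Γ : Type} [Group Γ] (H B : Subgroup Γ) (g : Γ) : Set Γ :=
  {x | ∃ h ∈ H, ∃ b ∈ B, x = h * g * b}

lemma rel_open {Γ : Type} [TopologicalSpace Γ] {M A : Set Γ}
    (h : (interior ((Subtype.val : M → Γ) ⁻¹' A)).Nonempty) :
    ∃ V, IsOpen V ∧ (∃ x ∈ M, x ∈ V) ∧ ∀ y ∈ M, y ∈ V → y ∈ A := by
  obtain ⟨x, hx⟩ := h
  obtain ⟨V, hV, e⟩ := isOpen_induced_iff.1 (isOpen_interior (s := (Subtype.val : M → Γ) ⁻¹' A))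
  refine ⟨V, hV, ⟨x, x.2, ?_⟩, fun y hy hyV => ?_⟩
  · rw [← e] at hx; exact hx
  · have : (⟨y, hy⟩ : M) ∈ interior ((Subtype.val : M → Γ) ⁻¹' A) := by rw [← e]; exact hyV
    exact interior_subset (s := (Subtype.val : M → Γ) ⁻¹' A) this

theorem cocompact {Γ : Type} [Group Γ] [TopologicalSpace Γ] [IsTopologicalGroup Γ] [T2Space Γ]
    [LocallyCompactSpace Γ] (H B : Subgroup Γ) (K : Set Γ) (hK : IsCompact K)
    (hKB : ∀ g, ∃ k ∈ K, ∃ b ∈ B, g = k * b)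
    (hH : IsSigmaCompact (H : Set Γ)) (hB : IsSigmaCompact (B : Set Γ))
    (hD : ∀ (g : Γ) (M : Set Γ), Dense (frontier ((Subtype.val : M → Γ) ⁻¹' DC H B g))ᶜ) :
    ∃ g, ∃ C : Set Γ, IsCompact C ∧ C ⊆ H ∧ ∀ h ∈ H, ∃ c ∈ C, g⁻¹ * (c⁻¹ * h) * g ∈ B := by
  let S : Set (Set Γ) := {M | IsClosed M ∧ M.Nonempty ∧ ∀ h ∈ H, ∀ b ∈ B, ∀ x ∈ M, h * x * b ∈ M}
  obtain ⟨M, -, hM⟩ := zorn_superset_nonempty S (fun c hc hch hne => by
    refine ⟨⋂₀ c, ⟨isClosed_sInter fun M hM => (hc hM).1, ?_, ?_⟩, fun s hs => sInter_subset_of_mem hs⟩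
    · have : Nonempty c := hne.to_subtype
      have := IsCompact.nonempty_iInter_of_directed_nonempty_isCompact_isClosed
        (fun M : c => (M : Set Γ) ∩ K) ?_ ?_ ?_ ?_
      · obtain ⟨x, hx⟩ := this
        exact ⟨x, fun M hM => (mem_iInter.1 hx ⟨M, hM⟩).1⟩
      · intro M N
        rcases hch.total M.2 N.2 with h | h
        · exact ⟨M, Subset.rfl, inter_subset_inter_left _ h⟩
        · exact ⟨N, inter_subset_inter_left _ h, Subset.rfl⟩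
      · intro M
        obtain ⟨x, hx⟩ := (hc M.2).2.1
        obtain ⟨k, hk, b, hb, rfl⟩ := hKB x
        refine ⟨k, ?_, hk⟩
        simpa using (hc M.2).2.2 1 H.one_mem b⁻¹ (B.inv_mem hb) _ hx
      · exact fun M => hK.inter_left (hc M.2).1
      · exact fun M => (hc M.2).1.inter hK.isClosed
    · intro h hh b hb x hx M hM
      exact (hc hM).2.2 h hh b hb x (hx M hM)) univ ⟨isClosed_univ, univ_nonempty, by simp⟩
  obtain ⟨hMc, ⟨g, hg⟩, hinv⟩ := hM.prop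
  have hgD : g ∈ DC H B g := ⟨1, H.one_mem, 1, B.one_mem, by simp⟩
  have hDinv : ∀ h ∈ H, ∀ b ∈ B, ∀ x ∈ DC H B g, h * x * b ∈ DC H B g := by
    rintro h hh b hb _ ⟨h', hh', b', hb', rfl⟩
    exact ⟨h * h', H.mul_mem hh hh', b' * b, B.mul_mem hb' hb, by group⟩
  have hDM : DC H B g ⊆ M := by
    rintro _ ⟨h, hh, b, hb, rfl⟩; exact hinv h hh b hb g hg
  have htr : ∀ x ∈ DC H B g, ∀ y ∈ DC H B g, ∃ h ∈ H, ∃ b ∈ B, h * y * b = x := by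
    rintro _ ⟨h, hh, b, hb, rfl⟩ _ ⟨h', hh', b', hb', rfl⟩
    exact ⟨h * h'⁻¹, H.mul_mem hh (H.inv_mem hh'), b'⁻¹ * b, B.mul_mem (B.inv_mem hb') hb, by group⟩
  have hcl : M ⊆ closure (DC H B g) := by
    refine hM.le_of_le (y := closure (DC H B g)) ⟨isClosed_closure, ⟨g, subset_closure hgD⟩, ?_⟩
      (closure_minimal hDM hMc)
    intro h hh b hb x hx
    exact map_mem_closure (f := fun x => h * x * b) (by fun_prop) hx (hDinv h hh b hb)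
  have hint : (interior ((Subtype.val : M → Γ) ⁻¹' DC H B g)).Nonempty := by
    have : Nonempty M := ⟨⟨g, hg⟩⟩
    obtain ⟨x, hx⟩ := (hD g M).nonempty
    refine ⟨x, ?_⟩
    by_contra hn
    refine hx ⟨?_, hn⟩
    rw [closure_subtype, Subtype.image_preimage_coe, inter_eq_self_of_subset_right hDM]
    exact hcl x.2
  obtain ⟨V, hV, ⟨x0, hx0M, hx0V⟩, hVD⟩ := rel_open hint
  have hMD : M ⊆ DC H B g := by
    intro y hy
    by_contra hyD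
    let N : Set Γ := M ∩ ⋂ h ∈ H, ⋂ b ∈ B, {z | h * z * b ∉ V}
    have hN : N ∈ S := by
      refine ⟨hMc.inter (isClosed_biInter fun h _ => isClosed_biInter fun b _ => ?_), ⟨y, hy, ?_⟩, ?_⟩
      · exact (hV.preimage (f := fun z => h * z * b) (by fun_prop)).isClosed_compl
      · simp only [mem_iInter, mem_setOf_eq]
        intro h hh b hb hv
        have := hDinv h⁻¹ (H.inv_mem hh) b⁻¹ (B.inv_mem hb) _ (hVD _ (hinv h hh b hb y hy) hv)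
        exact hyD (by simpa [mul_assoc] using this)
      · rintro h hh b hb x ⟨hx, hx'⟩
        refine ⟨hinv h hh b hb x hx, ?_⟩
        simp only [mem_iInter, mem_setOf_eq] at hx' ⊢
        intro h' hh' b' hb'
        have := hx' (h' * h) (H.mul_mem hh' hh) (b * b') (B.mul_mem hb hb')
        simpa [mul_assoc] using this
    have hgN := (hM.le_of_le hN inter_subset_left hg).2
    simp only [mem_iInter, mem_setOf_eq] at hgN
    obtain ⟨h, hh, b, hb, e⟩ := htr x0 (hVD _ hx0M hx0V) g hgD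
    exact hgN h hh b hb (e ▸ hx0V)
  obtain ⟨Hn, hHn, eH⟩ := hH
  obtain ⟨Bn, hBn, eB⟩ := hB
  let Dn : ℕ × ℕ → Set Γ := fun ij => (fun p : Γ × Γ => p.1 * g * p.2) '' (Hn ij.1 ×ˢ Bn ij.2)
  have : LocallyCompactSpace M := hMc.locallyCompactSpace
  have : Nonempty M := ⟨⟨g, hg⟩⟩
  obtain ⟨ij, hij⟩ := nonempty_interior_of_iUnion_of_closed
    (f := fun ij : ℕ × ℕ => (Subtype.val : M → Γ) ⁻¹' Dn ij) (fun ij =>
      (((hHn ij.1).prod (hBn ij.2)).image (by fun_prop)).isClosed.preimage continuous_subtype_val)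
    (by
      refine eq_univ_of_forall fun x => ?_
      obtain ⟨h, hh, b, hb, e⟩ := hMD x.2
      have hh' : h ∈ ⋃ n, Hn n := eH ▸ hh
      have hb' : b ∈ ⋃ n, Bn n := eB ▸ hb
      obtain ⟨i, hi⟩ := mem_iUnion.1 hh'
      obtain ⟨j, hj⟩ := mem_iUnion.1 hb'
      exact mem_iUnion.2 ⟨(i, j), (h, b), ⟨hi, hj⟩, e.symm⟩)
  obtain ⟨V', hV', ⟨x1, hx1M, hx1V⟩, hVD'⟩ := rel_open hij
  obtain ⟨t, ht⟩ := (hK.inter_right hMc).elim_finite_subcover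
    (fun p : H × B => {z : Γ | (p.1 : Γ) * z * p.2 ∈ V'})
    (fun p => hV'.preimage (f := fun z => (p.1 : Γ) * z * p.2) (by fun_prop)) (by
      rintro z ⟨-, hz⟩
      obtain ⟨h, hh, b, hb, e⟩ := htr x1 (hMD hx1M) z (hMD hz)
      exact mem_iUnion.2 ⟨(⟨h, hh⟩, ⟨b, hb⟩), by simpa [e] using hx1V⟩)
  have hHs : ∀ i, Hn i ⊆ H := fun i => eH ▸ subset_iUnion Hn i
  have hBs : ∀ i, Bn i ⊆ B := fun i => eB ▸ subset_iUnion Bn i
  refine ⟨g, ⋃ p ∈ t, (fun η => (p.1 : Γ)⁻¹ * η) '' Hn ij.1,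
    t.isCompact_biUnion fun p _ => (hHn _).image (by fun_prop), ?_, fun h hh => ?_⟩
  · refine iUnion₂_subset fun p _ => ?_
    rintro _ ⟨η, hη, rfl⟩
    exact H.mul_mem (H.inv_mem p.1.2) (hHs _ hη)
  · obtain ⟨k, hk, b, hb, e⟩ := hKB (h * g)
    have hkM : k ∈ M := by
      have := hinv h hh b⁻¹ (B.inv_mem hb) g hg
      rwa [e, mul_inv_cancel_right] at this
    obtain ⟨p, hp, hkp⟩ := mem_iUnion₂.1 (ht ⟨hk, hkM⟩)
    obtain ⟨⟨η, β⟩, ⟨hη, hβ⟩, e2⟩ := hVD' _ (hinv _ p.1.2 _ p.2.2 k hkM) hkp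
    refine ⟨(p.1 : Γ)⁻¹ * η, mem_iUnion₂.2 ⟨p, hp, η, hη, rfl⟩, ?_⟩
    have e3 : g⁻¹ * (((p.1 : Γ)⁻¹ * η)⁻¹ * h) * g = β * (p.2 : Γ)⁻¹ * b := by
      have : (p.1 : Γ) * k = η * g * β * (p.2 : Γ)⁻¹ := by
        simp only at e2; rw [e2]; group
      calc g⁻¹ * (((p.1 : Γ)⁻¹ * η)⁻¹ * h) * g = g⁻¹ * η⁻¹ * ((p.1 : Γ) * (h * g)) := by group
        _ = g⁻¹ * η⁻¹ * (((p.1 : Γ) * k) * b) := by rw [e]; group
        _ = _ := by rw [this]; group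
    rw [e3]
    exact B.mul_mem (B.mul_mem (hBs _ hβ) (B.inv_mem p.2.2)) hb

end Pool.Agent.H.MP_296aa8_al
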