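import Mathlib

namespace Pool.Agent.H.MP_296aa8_al
open Matrix Module Filter Topology

variable {ι : Type} [Fintype ι] [DecidableEq ι]

lemma key_rank (p : ι → Prop) [DecidablePred p] (B : Matrix ι ι ℂ)
    (h : ∀ s : ℂ, (diagonal (fun k => if p k then (1 : ℂ) else 0) + s • B).rank ≤
      Fintype.card {k // p k}) (i j : ι) (hi : ¬ p i) (hj : ¬ p j) :
    B i j = 0 ∧ ∑ k : {k // p k}, B i k * B k j = 0 := by
  let B1 : Matrix {k // p k} {k // p k} ℂ := B.submatrix Subtype.val Subtype.val
  let u : Matrix {k // p k} Unit ℂ := of fun k _ => B k j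
  let v : Matrix Unit {k // p k} ℂ := of fun _ k => B i k
  let A : ℂ → Matrix {k // p k} {k // p k} ℂ := fun s => 1 + s • B1
  let g : ℂ → ℂ := fun s => (v * (A s).adjugate * u) () ()
  have hA : Continuous A := by fun_prop
  have hg : Continuous g :=
    ((continuous_const.matrix_mul hA.matrix_adjugate).matrix_mul continuous_const).matrix_elem _ _
  have hd : Continuous fun s => (A s).det := hA.matrix_det
  have hA0 : A 0 = 1 := by simp [A]
  have h1 : ∀ s : ℂ, s ≠ 0 → (A s).det ≠ 0 → B i j * (A s).det = s * g s := by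
    intro s hs hdet
    have hsub : (diagonal (fun k => if p k then (1 : ℂ) else 0) + s • B).submatrix
        (Sum.elim Subtype.val fun _ : Unit => i) (Sum.elim Subtype.val fun _ : Unit => j) =
        fromBlocks (A s) (s • u) (s • v) (of fun _ _ => s * B i j) := by
      ext (k | k) (l | l)
      · by_cases hkl : k = l
        · subst hkl; simp [A, B1, k.2]
        · have : (k : ι) ≠ l := fun e => hkl (Subtype.ext e)
          simp [A, B1, hkl, this]
      · have : (k : ι) ≠ j := fun e => hj (e ▸ k.2)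
        simp [u, this]
      · have : i ≠ (l : ι) := fun e => hi (e ▸ l.2)
        simp [v, this]
      · simp [diagonal_apply, hi]
    have h0 : (fromBlocks (A s) (s • u) (s • v) (of fun _ _ => s * B i j)).det = 0 := by
      by_contra hne
      have h2 := rank_of_isUnit _ ((isUnit_iff_isUnit_det _).2 (isUnit_iff_ne_zero.2 hne))
      have h3 := (rank_submatrix_le _ (Sum.elim (Subtype.val : {k // p k} → ι) fun _ : Unit => i)
        (Sum.elim (Subtype.val : {k // p k} → ι) fun _ : Unit => j)).trans (h s)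
      rw [hsub, h2] at h3
      simp at h3
    let _ := invertibleOfIsUnitDet (A s) (isUnit_iff_ne_zero.2 hdet)
    rw [det_fromBlocks₁₁, mul_eq_zero, invOf_eq_nonsing_inv, inv_def] at h0
    have h4 := h0.resolve_left hdet
    rw [det_unique] at h4
    simp only [Matrix.smul_mul, Matrix.mul_smul, Matrix.sub_apply, Matrix.smul_apply, of_apply,
      smul_eq_mul, Ring.inverse_eq_inv'] at h4
    have h5 : s * B i j - s * ((A s).det⁻¹ * (s * g s)) = 0 := h4
    field_simp at h5
    have h6 : s * ((A s).det * B i j - s * g s) = 0 := by linear_combination h5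
    have := (mul_eq_zero.1 h6).resolve_left hs
    linear_combination this
  have hev : ∀ᶠ s in 𝓝[≠] (0 : ℂ), B i j * (A s).det = s * g s := by
    have : ∀ᶠ s in 𝓝 (0 : ℂ), (A s).det ≠ 0 :=
      hd.continuousAt.eventually_ne (by simp [hA0])
    filter_upwards [self_mem_nhdsWithin, nhdsWithin_le_nhds this] with s h1' h2 using h1 s h1' h2
  have hB : B i j = 0 := by
    have t1 : Tendsto (fun s => B i j * (A s).det) (𝓝[≠] (0 : ℂ)) (𝓝 (B i j * (A 0).det)) :=
      ((continuous_const.mul hd).tendsto 0).mono_left nhdsWithin_le_nhds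
    have t2 : Tendsto (fun s => s * g s) (𝓝[≠] (0 : ℂ)) (𝓝 (0 * g 0)) :=
      ((continuous_id.mul hg).tendsto 0).mono_left nhdsWithin_le_nhds
    simpa [hA0] using tendsto_nhds_unique_of_eventuallyEq t1 t2 hev
  refine ⟨hB, ?_⟩
  have hev2 : g =ᶠ[𝓝[≠] (0 : ℂ)] fun _ => 0 := by
    filter_upwards [hev, self_mem_nhdsWithin] with s h1' h2
    rw [hB, zero_mul] at h1'
    exact (mul_eq_zero.1 h1'.symm).resolve_left h2
  have := tendsto_nhds_unique_of_eventuallyEq ((hg.tendsto 0).mono_left nhdsWithin_le_nhds)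
    tendsto_const_nhds hev2
  simp only [g, hA0, adjugate_one, Matrix.mul_one] at this
  simpa [mul_apply, u, v] using this

noncomputable def extC (p : ι → Prop) [DecidablePred p] :
    Matrix {k // ¬ p k} ι ℂ →ₗ[ℝ] Matrix ι ι ℂ where
  toFun C := of fun k l => if h : ¬ p k then C ⟨k, h⟩ l else
    if h' : ¬ p l then (starRingEnd ℂ) (C ⟨l, h'⟩ k) else 0
  map_add' C D := by ext k l; simp only [of_apply, Matrix.add_apply]; split_ifs <;> simp
  map_smul' r C := by
    ext k l; simp only [of_apply, Matrix.smul_apply, RingHom.id_apply]; split_ifs <;> simp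

lemma dieu_norm (W : Submodule ℂ (Matrix ι ι ℂ)) (p : ι → Prop) [DecidablePred p]
    (hE : diagonal (fun k => if p k then (1 : ℂ) else 0) ∈ W)
    (hr : ∀ B ∈ W, B.rank ≤ Fintype.card {k // p k}) (hs : ∀ A ∈ W, A.det = 0) :
    finrank ℂ W + Fintype.card ι ≤ Fintype.card ι * Fintype.card ι ∧
    (finrank ℂ W + Fintype.card ι = Fintype.card ι * Fintype.card ι →
      ∃ j, (∀ A ∈ W, ∀ k, A k j = 0) ∨ (∀ A ∈ W, ∀ l, A j l = 0)) := by
  have hk : ∀ B ∈ W, ∀ i j, ¬ p i → ¬ p j → B i j = 0 ∧ ∑ k : {k // p k}, B i k * B k j = 0 :=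
    fun B hB => key_rank p B fun s => hr _ (W.add_mem hE (W.smul_mem s hB))
  have hkey : ∀ B ∈ W, ∀ C, (∀ k l, ¬ (p k ∧ p l) → B k l + extC p C k l = 0) → C = 0 := by
    intro B hB C hC
    ext i l
    by_cases hl : p l
    · have h1 := (hk B hB i i i.2 i.2).2
      have h2 : ∀ k : {k // p k}, B i k * B k i = (Complex.normSq (C i k) : ℂ) := by
        intro k
        have a1 := hC i k (fun h => i.2 h.1)
        have a2 := hC k i (fun h => i.2 h.2)
        simp only [extC, LinearMap.coe_mk, AddHom.coe_mk, of_apply, i.2, k.2, not_true_eq_false,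
          not_false_eq_true, dite_true, dite_false] at a1 a2
        rw [eq_neg_of_add_eq_zero_left a1, eq_neg_of_add_eq_zero_left a2, neg_mul_neg,
          Complex.mul_conj]
      simp only [h2] at h1
      rw [← Complex.ofReal_sum, Complex.ofReal_eq_zero,
        Finset.sum_eq_zero_iff_of_nonneg fun _ _ => Complex.normSq_nonneg _] at h1
      exact Complex.normSq_eq_zero.1 (h1 ⟨l, hl⟩ (Finset.mem_univ _))
    · have a1 := hC i l (fun h => i.2 h.1)
      rw [(hk B hB i l i.2 hl).1] at a1
      simpa [extC, i.2] using a1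
  let Φ : (W × Matrix {k // ¬ p k} ι ℂ) →ₗ[ℝ] Matrix ι ι ℂ :=
    (W.subtype.restrictScalars ℝ).coprod (extC p)
  have hinj : Function.Injective Φ := by
    rw [injective_iff_map_eq_zero]
    rintro ⟨B, C⟩ h
    have h' : (B : Matrix ι ι ℂ) + extC p C = 0 := h
    have hC := hkey B B.2 C fun k l _ => by rw [← Matrix.add_apply, h']; rfl
    subst hC
    rw [map_zero, add_zero] at h'
    exact Prod.ext (Subtype.ext h') rfl
  have f1 : finrank ℝ (W × Matrix {k // ¬ p k} ι ℂ) =
      2 * finrank ℂ W + 2 * (Fintype.card {k // ¬ p k} * Fintype.card ι) := by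
    rw [finrank_prod, ← finrank_mul_finrank ℝ ℂ W, ← finrank_mul_finrank ℝ ℂ (Matrix _ _ ℂ),
      Complex.finrank_real_complex, finrank_matrix]; simp
  have f2 : finrank ℝ (Matrix ι ι ℂ) = 2 * (Fintype.card ι * Fintype.card ι) := by
    rw [← finrank_mul_finrank ℝ ℂ (Matrix _ _ ℂ), Complex.finrank_real_complex, finrank_matrix]
    simp
  have hle := LinearMap.finrank_le_finrank_of_injective hinj
  obtain ⟨j, hj⟩ : ∃ j, ¬ p j := by
    by_contra hn
    push Not at hn
    simpa [hn] using hs _ hE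
  have hc : 1 ≤ Fintype.card {k // ¬ p k} := Fintype.card_pos_iff.2 ⟨⟨j, hj⟩⟩
  have hn : 1 ≤ Fintype.card ι := Fintype.card_pos_iff.2 ⟨j⟩
  rw [f1, f2] at hle
  refine ⟨by nlinarith, fun heq => ⟨j, ?_⟩⟩
  have hc1 : Fintype.card {k // ¬ p k} = 1 := by
    by_contra hne
    have : 2 ≤ Fintype.card {k // ¬ p k} := by omega
    nlinarith
  have hj0 : ∀ k, k ≠ j → p k := by
    intro k hk'
    by_contra hp
    have := Fintype.card_le_one_iff.1 hc1.le ⟨k, hp⟩ ⟨j, hj⟩
    exact hk' (congrArg Subtype.val this)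
  have hsurj : Function.Surjective Φ :=
    (LinearMap.injective_iff_surjective_of_finrank_eq_finrank (by rw [f1, f2, hc1]; omega)).1 hinj
  have hT : ∀ T : Matrix ι ι ℂ, (∀ k, T k j = 0) → (∀ l, T j l = 0) → T ∈ W := by
    intro T h1 h2
    obtain ⟨⟨B, C⟩, h⟩ := hsurj T
    have h' : (B : Matrix ι ι ℂ) + extC p C = T := h
    have hC := hkey B B.2 C fun k l hkl => by
      rw [← Matrix.add_apply, h']
      by_cases hk' : k = j
      · rw [hk']; exact h2 l
      · by_cases hl' : l = j
        · rw [hl']; exact h1 k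
        · exact absurd ⟨hj0 k hk', hj0 l hl'⟩ hkl
    subst hC
    rw [map_zero, add_zero] at h'
    exact h' ▸ B.2
  have hor : ∀ B ∈ W, (∀ k, B k j = 0) ∨ (∀ l, B j l = 0) := by
    intro B hB
    by_contra hcon
    push Not at hcon
    obtain ⟨⟨k0, hk0⟩, ⟨l0, hl0⟩⟩ := hcon
    have hjj := (hk B hB j j hj hj).1
    have hk0j : k0 ≠ j := fun e => hk0 (e ▸ hjj)
    have hl0j : l0 ≠ j := fun e => hl0 (e ▸ hjj)
    let T : Matrix ι ι ℂ := of fun k l => if k = j ∨ l = j then B k l else
      if k ≠ k0 ∧ l = Equiv.swap k0 l0 k then 1 else 0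
    have hTW : T ∈ W := by
      have := W.add_mem hB (hT (T - B) (fun k => by simp [T]) (fun l => by simp [T]))
      simpa using this
    obtain ⟨w, hw0, hw⟩ := Matrix.exists_mulVec_eq_zero_iff.2 (hs T hTW)
    have e1 : w j = 0 := by
      have := congrFun hw k0
      simp only [mulVec, dotProduct, T, of_apply, Pi.zero_apply] at this
      rw [Finset.sum_eq_single j (fun l _ hl => by simp [hk0j, hl]) (by simp)] at this
      simpa [hk0] using this
    have e2 : ∀ l, l ≠ l0 → w l = 0 := by
      intro l hl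
      by_cases hlj : l = j
      · rw [hlj]; exact e1
      have hk1 : Equiv.swap k0 l0 l ≠ j := by
        intro e
        rw [Equiv.swap_apply_eq_iff, Equiv.swap_apply_of_ne_of_ne hk0j.symm hl0j.symm] at e
        exact hlj e
      have hk2 : Equiv.swap k0 l0 l ≠ k0 := by
        intro e
        rw [Equiv.swap_apply_eq_iff, Equiv.swap_apply_left] at e
        exact hl e
      have := congrFun hw (Equiv.swap k0 l0 l)
      simp only [mulVec, dotProduct, T, of_apply, Pi.zero_apply] at this
      rw [Finset.sum_eq_single l (fun l' _ hl' => by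
        by_cases h' : l' = j
        · simp [h', e1]
        · simp [hk1, h', hl']) (by simp)] at this
      simpa [hk1, hlj, hk2] using this
    have e3 : w l0 = 0 := by
      have := congrFun hw j
      simp only [mulVec, dotProduct, T, of_apply, Pi.zero_apply] at this
      rw [Finset.sum_eq_single l0 (fun l _ hl => by simp [e2 l hl]) (by simp)] at this
      simpa [hl0] using this
    refine hw0 (funext fun l => ?_)
    by_cases hl : l = l0
    · rw [hl]; exact e3
    · exact e2 l hl
  by_contra hcon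
  push Not at hcon
  obtain ⟨⟨A, hA, k, hk1⟩, ⟨B, hB, l, hl1⟩⟩ := hcon
  have hA' := (hor A hA).resolve_left fun h => hk1 (h k)
  have hB' := (hor B hB).resolve_right fun h => hl1 (h l)
  rcases hor _ (W.add_mem hA hB) with h | h
  · exact hk1 (by simpa [hB'] using h k)
  · exact hl1 (by simpa [hA'] using h l)

/-- Dieudonne's theorem on singular subspaces -/
theorem dieu (W : Submodule ℂ (Matrix ι ι ℂ)) (hs : ∀ A ∈ W, A.det = 0) :
    finrank ℂ W + Fintype.card ι ≤ Fintype.card ι * Fintype.card ι ∧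
    (finrank ℂ W + Fintype.card ι = Fintype.card ι * Fintype.card ι →
      ∃ x : ι → ℂ, x ≠ 0 ∧ ((∀ A ∈ W, A *ᵥ x = 0) ∨ (∀ A ∈ W, x ᵥ* A = 0))) := by
  classical
  obtain ⟨A, hA, hmax⟩ : ∃ A ∈ W, ∀ B ∈ W, B.rank ≤ A.rank := by
    obtain ⟨r, ⟨A, hA, rfl⟩, hr⟩ := Set.Finite.exists_maximal
      (s := (fun A : Matrix ι ι ℂ => A.rank) '' (W : Set _))
      ((Set.finite_Iic (Fintype.card ι)).subset (by
        rintro _ ⟨A, -, rfl⟩; exact A.rank_le_card_width)) ⟨_, 0, W.zero_mem, rfl⟩
    refine ⟨A, hA, fun B hB => ?_⟩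
    by_contra h
    exact h (hr ⟨B, hB, rfl⟩ (not_le.1 h).le)
  obtain ⟨L, L', D, hD⟩ := Pivot.exists_list_transvec_mul_mul_list_transvec_eq_diagonal A
  set Q0 := (L.map TransvectionStruct.toMatrix).prod
  set R := (L'.map TransvectionStruct.toMatrix).prod
  have hQ0 : Q0.det = 1 := TransvectionStruct.det_toMatrix_prod L
  have hR : R.det ≠ 0 := by rw [TransvectionStruct.det_toMatrix_prod L']; exact one_ne_zero
  let Q := diagonal (fun k => if D k ≠ 0 then (D k)⁻¹ else 1) * Q0
  have hQ : Q.det ≠ 0 := by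
    rw [det_mul, hQ0, mul_one, det_diagonal]
    exact Finset.prod_ne_zero_iff.2 fun k _ => by split_ifs with h <;> simp [h]
  let f : Matrix ι ι ℂ →ₗ[ℂ] Matrix ι ι ℂ :=
    { toFun := fun B => Q * B * R
      map_add' := fun B C => by simp [Matrix.mul_add, Matrix.add_mul]
      map_smul' := fun c B => by simp }
  have hQu : IsUnit Q := (isUnit_iff_isUnit_det _).2 (isUnit_iff_ne_zero.2 hQ)
  have hRu : IsUnit R := (isUnit_iff_isUnit_det _).2 (isUnit_iff_ne_zero.2 hR)
  have hf : Function.Injective f := fun B C h =>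
    hQu.mul_left_cancel (hRu.mul_right_cancel h)
  have hrk : ∀ B, (f B).rank = B.rank := fun B => by
    change (Q * B * R).rank = _
    rw [rank_mul_eq_left_of_det_ne_zero _ _ hR, rank_mul_eq_right_of_det_ne_zero _ _ hQ]
  have hfA : f A = diagonal (fun k => if D k ≠ 0 then (1 : ℂ) else 0) := by
    change Q * A * R = _
    rw [show Q * A * R = diagonal (fun k => if D k ≠ 0 then (D k)⁻¹ else 1) * (Q0 * A * R) by
      simp only [Q, Matrix.mul_assoc], hD, diagonal_mul_diagonal]
    congr 1; ext k; by_cases h : D k = 0 <;> simp [h]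
  have hcard : A.rank = Fintype.card {k // D k ≠ 0} := by
    rw [← hrk, hfA, rank_diagonal]
    exact Fintype.card_congr (Equiv.subtypeEquivRight fun k => by simp)
  obtain ⟨h1, h2⟩ := dieu_norm (W.map f) (fun k => D k ≠ 0) (hfA ▸ Submodule.mem_map_of_mem hA)
    (by rintro _ ⟨B, hB, rfl⟩; rw [hrk, ← hcard]; exact hmax B hB)
    (by rintro _ ⟨B, hB, rfl⟩; change (Q * B * R).det = 0; simp [hs B hB])
  rw [← (Submodule.equivMapOfInjective f hf W).finrank_eq] at h1 h2
  refine ⟨h1, fun he => ?_⟩
  obtain ⟨j, h | h⟩ := h2 he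
  · refine ⟨R *ᵥ Pi.single j 1, fun h0 => ?_, Or.inl fun B hB => ?_⟩
    · have := mulVec_injective_iff_isUnit.2 hRu (h0.trans (mulVec_zero R).symm)
      simpa using congrFun this j
    · refine mulVec_injective_iff_isUnit.2 hQu ?_
      rw [mulVec_mulVec, mulVec_mulVec, mulVec_zero]
      ext k
      have : (Q * B * R) k j = 0 := h _ (Submodule.mem_map_of_mem hB) k
      simpa using this
  · refine ⟨Pi.single j 1 ᵥ* Q, fun h0 => ?_, Or.inr fun B hB => ?_⟩
    · have := vecMul_injective_iff_isUnit.2 hQu (h0.trans (zero_vecMul Q).symm)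
      simpa using congrFun this j
    · refine vecMul_injective_iff_isUnit.2 hRu ?_
      simp only
      rw [vecMul_vecMul, vecMul_vecMul, zero_vecMul, ← Matrix.mul_assoc]
      ext k
      have : (Q * B * R) j k = 0 := h _ (Submodule.mem_map_of_mem hB) k
      simpa using this

end Pool.Agent.H.MP_296aa8_al
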