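import Pool.Agent.H.MP_296aa8_al.Tri
import Pool.Agent.H.MP_296aa8_al.Chev
import Pool.Agent.H.MP_296aa8_al.Cocompact

namespace Pool.Agent.H.MP_296aa8_al
open Matrix Module Filter Topology Set

abbrev Mt (n : ℕ) := Matrix (Fin n) (Fin n) ℂ

instance (n : ℕ) : LocallyCompactSpace (Mt n) :=
  inferInstanceAs (LocallyCompactSpace (Fin n → Fin n → ℂ))

instance (n : ℕ) : SigmaCompactSpace (Mt n) :=
  inferInstanceAs (SigmaCompactSpace (Fin n → Fin n → ℂ))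

def Bor (n : ℕ) : Subgroup (Mt n)ˣ where
  carrier := {g | (g : Mt n).BlockTriangular id}
  mul_mem' ha hb := BlockTriangular.mul ha hb
  one_mem' := blockTriangular_one
  inv_mem' {g} hg := by
    let _ := g.invertible
    change ((g⁻¹ : (Mt n)ˣ) : Mt n).BlockTriangular id
    rw [coe_units_inv]
    exact blockTriangular_inv_of_blockTriangular hg

def emb (n : ℕ) (g : (Mt n)ˣ) : Mt n × Mt n := (g, (g⁻¹ : (Mt n)ˣ))

lemma emb_closed (n : ℕ) : IsClosedEmbedding (emb n) :=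
  (Homeomorph.prodCongr (Homeomorph.refl _) MulOpposite.opHomeomorph.symm).isClosedEmbedding.comp
    Units.isClosedEmbedding_embedProduct

def Cb (n : ℕ) : Set (Mt n) := {M | ∀ i j, ‖M i j‖ ≤ 1}

lemma Cb_compact (n : ℕ) : IsCompact (Cb n) := by
  have := isCompact_univ_pi fun _ : Fin n => isCompact_univ_pi fun _ : Fin n =>
    isCompact_closedBall (0 : ℂ) 1
  have e : Cb n = Set.pi univ fun _ : Fin n => Set.pi univ fun _ : Fin n =>
      Metric.closedBall (0 : ℂ) 1 := by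
    ext M
    exact ⟨fun h i _ j _ => by simpa using h i j, fun h i j => by simpa using h i trivial j trivial⟩
  rw [e]; exact this

def Kc (n : ℕ) : Set (Mt n)ˣ := emb n ⁻¹' (Cb n ×ˢ Cb n)

lemma Kc_compact (n : ℕ) : IsCompact (Kc n) :=
  (emb_closed n).isCompact_preimage ((Cb_compact n).prod (Cb_compact n))

lemma qr (n : ℕ) (g : (Mt n)ˣ) : ∃ k ∈ Kc n, ∃ b ∈ Bor n, g = k * b := by
  let f : Fin n → EuclideanSpace ℂ (Fin n) := fun j => WithLp.toLp 2 fun i => (g : Mt n) i j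
  have h : finrank ℂ (EuclideanSpace ℂ (Fin n)) = Fintype.card (Fin n) := by simp
  let b := InnerProductSpace.gramSchmidtOrthonormalBasis h f
  let a := EuclideanSpace.basisFun (Fin n) ℂ
  let U : Mt n := a.toBasis.toMatrix b
  have hU : U ∈ Matrix.unitaryGroup (Fin n) ℂ := a.toMatrix_orthonormalBasis_mem_unitary b
  have hUR : U * b.toBasis.toMatrix f = g := by
    have := Module.Basis.toMatrix_mul_toMatrix a.toBasis b.toBasis f
    rw [OrthonormalBasis.coe_toBasis] at this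
    rw [this]; ext i j; simp [Module.Basis.toMatrix_apply, a, f]
  have hb : ∀ i j, ‖U i j‖ ≤ 1 := fun i j => by
    have : U i j = b j i := by simp [U, Module.Basis.toMatrix_apply, a]
    rw [this, ← b.orthonormal.1 j]
    exact PiLp.norm_apply_le _ _
  let k : (Mt n)ˣ := ⟨U, star U, hU.2, hU.1⟩
  refine ⟨k, ⟨hb, fun i j => ?_⟩, k⁻¹ * g, ?_, by simp⟩
  · change ‖star (U j i)‖ ≤ 1
    rw [norm_star]; exact hb j i
  · change (star U * (g : Mt n)).BlockTriangular id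
    rw [← hUR, ← Matrix.mul_assoc, hU.1, Matrix.one_mul]
    exact InnerProductSpace.gramSchmidtOrthonormalBasis_inv_isUpperTriangular h f

section actl
variable {μ ι : Type} [Fintype μ] [DecidableEq μ] [Fintype ι] [DecidableEq ι]

omit [DecidableEq μ] [DecidableEq ι] in
lemma act_mul (P P' : Matrix μ μ ℂ) (Q Q' S S' : Matrix ι ι ℂ) (X : μ → Matrix ι ι ℂ) :
    act (P * P') (Q * Q') (S * S') X = act P Q S (act P' Q' S' X) := by
  ext1 i
  simp only [act, mul_apply, Finset.sum_smul, Matrix.mul_sum, Matrix.sum_mul, Finset.smul_sum,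
    Matrix.mul_smul, Matrix.smul_mul, smul_smul, transpose_mul, Matrix.mul_assoc]
  exact Finset.sum_comm

lemma act_one (X : μ → Matrix ι ι ℂ) : act 1 1 1 X = X := by
  ext1 i
  simp [act, one_apply]

omit [DecidableEq μ] in
lemma act_sing (P : Matrix μ μ ℂ) (Q S : Matrix ι ι ℂ) {X : μ → Matrix ι ι ℂ}
    (h : X ∈ Sing μ ι) : act P Q S X ∈ Sing μ ι := by
  intro c
  have : ∑ i, c i • act P Q S X i = Q * (∑ j, (c ᵥ* P) j • X j) * Sᵀ := by
    simp only [act, vecMul, dotProduct, Finset.smul_sum, smul_smul, Finset.sum_smul,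
      Matrix.mul_sum, Matrix.sum_mul, Matrix.mul_smul, Matrix.smul_mul]
    exact Finset.sum_comm
  rw [this, det_mul, det_mul, h, mul_zero, zero_mul]

omit [DecidableEq μ] [DecidableEq ι] in
lemma act_tr (P : Matrix μ μ ℂ) (Q S : Matrix ι ι ℂ) (X : μ → Matrix ι ι ℂ) :
    trE μ ι (act P Q S (trE μ ι X)) = act P S Q X := by
  ext1 i
  change (∑ j, P i j • (Q * (X j)ᵀ * Sᵀ))ᵀ = _
  simp [act, transpose_sum, transpose_mul, Matrix.mul_assoc]

end actl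

abbrev Gam (m n : ℕ) := (Mt m)ˣ × (Mt n)ˣ × (Mt n)ˣ

def ac {m n : ℕ} (γ : Gam m n) (X : Fin m → Mt n) : Fin m → Mt n := act γ.1 γ.2.1 γ.2.2 X

lemma ac_mul {m n : ℕ} (γ δ : Gam m n) (X : Fin m → Mt n) : ac (γ * δ) X = ac γ (ac δ X) :=
  act_mul _ _ _ _ _ _ _

lemma ac_one {m n : ℕ} (X : Fin m → Mt n) : ac 1 X = X := act_one X

lemma ac_zero {m n : ℕ} (γ : Gam m n) : ac γ 0 = 0 := by ext1 i; simp [ac, act]

lemma ac_cont {m n : ℕ} : Continuous fun p : Gam m n × (Fin m → Mt n) => ac p.1 p.2 := by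
  refine continuous_pi fun i => ?_
  unfold ac act
  refine continuous_finset_sum _ fun j _ => ?_
  have h1 : Continuous fun p : Gam m n × (Fin m → Mt n) => (p.1.1 : Mt m) := by fun_prop
  refine Continuous.smul (h1.matrix_elem i j) ?_
  exact (Continuous.matrix_mul (by fun_prop) (by fun_prop)).matrix_mul
    (Continuous.matrix_transpose (by fun_prop))

abbrev W1 (m n : ℕ) := (Mt m × Mt m) × (Mt n × Mt n) × (Mt n × Mt n)

def E3 {m n : ℕ} (γ : Gam m n) : W1 m n := (emb m γ.1, emb n γ.2.1, emb n γ.2.2)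

lemma E3_ind {m n : ℕ} : IsInducing (E3 : Gam m n → W1 m n) :=
  (emb_closed m).isInducing.prodMap ((emb_closed n).isInducing.prodMap (emb_closed n).isInducing)

def ZU (m n : ℕ) : Set (W1 m n) :=
  {u | u.1.1 * u.1.2 = 1 ∧ u.2.1.1 * u.2.1.2 = 1 ∧ u.2.2.1 * u.2.2.2 = 1}

lemma mem_ZU {m n : ℕ} {u : W1 m n} : u ∈ ZU m n ↔ ∃ γ, E3 γ = u := by
  constructor
  · rintro ⟨h1, h2, h3⟩
    exact ⟨(⟨_, _, h1, mul_eq_one_comm.1 h1⟩, ⟨_, _, h2, mul_eq_one_comm.1 h2⟩,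
      ⟨_, _, h3, mul_eq_one_comm.1 h3⟩), rfl⟩
  · rintro ⟨γ, rfl⟩
    exact ⟨γ.1.mul_inv, γ.2.1.mul_inv, γ.2.2.mul_inv⟩

lemma ZU_alg (m n : ℕ) : IsAlg (ZU m n) :=
  (IsAlg.meq (PMap.id.fst.fst.mul PMap.id.fst.snd) (PMap.const _)).and
    ((IsAlg.meq (PMap.id.snd.fst.fst.mul PMap.id.snd.fst.snd) (PMap.const _)).and
      (IsAlg.meq (PMap.id.snd.snd.fst.mul PMap.id.snd.snd.snd) (PMap.const _)))

lemma IsAlg.comp {W W' : Type} [AddCommGroup W] [Module ℂ W] [AddCommGroup W'] [Module ℂ W']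
    {Z : Set W'} (hZ : IsAlg Z) {F : W → W'} (hF : PMap F) : IsAlg {w | F w ∈ Z} := by
  obtain ⟨S, hS, rfl⟩ := hZ
  exact IsAlg.all fun f => IsAlg.all fun hf => IsAlg.zero (Pol.comp hF (hS f hf))

lemma IsAlg.tri {W : Type} [AddCommGroup W] [Module ℂ W] {n : ℕ} {F : W → Mt n} (hF : PMap F) :
    IsAlg {w | (F w).BlockTriangular id} :=
  IsAlg.all fun i => IsAlg.all fun j => IsAlg.all fun _ => IsAlg.zero (hF.entry i j)

def B3 (m n : ℕ) : Subgroup (Gam m n) := (Bor m).prod ((Bor n).prod (Bor n))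

lemma B3_closed (m n : ℕ) : IsSigmaCompact (B3 m n : Set (Gam m n)) := by
  rw [E3_ind.isSigmaCompact_iff]
  have : E3 '' (B3 m n : Set (Gam m n)) = {u : W1 m n | u ∈ ZU m n ∧ u.1.1.BlockTriangular id ∧
      u.2.1.1.BlockTriangular id ∧ u.2.2.1.BlockTriangular id} := by
    ext u
    constructor
    · rintro ⟨γ, h, rfl⟩; exact ⟨mem_ZU.2 ⟨γ, rfl⟩, h⟩
    · rintro ⟨h, h'⟩
      obtain ⟨γ, rfl⟩ := mem_ZU.1 h
      exact ⟨γ, h', rfl⟩
  rw [this]
  have I : PMap fun w : W1 m n => w := PMap.id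
  exact isSigmaCompact_univ.of_isClosed_subset (IsAlg.isClosed ((ZU_alg m n).and
    ((IsAlg.tri I.fst.fst).and ((IsAlg.tri I.snd.fst.fst).and
      (IsAlg.tri I.snd.snd.fst))))) (subset_univ _)

/-- a subgroup that is the projection of an algebraic set is cocompact modulo a Borel part -/
lemma cocompact_alg {m n : ℕ} (H : Subgroup (Gam m n)) {N : ℕ} {Z : Set ((Mt N × ℂ) × W1 m n)}
    (hZ : IsAlg Z) (hH : ∀ γ, γ ∈ H ↔ ∃ x, (x, E3 γ) ∈ Z) (hU : ∀ w ∈ Z, w.2 ∈ ZU m n) :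
    ∃ g, ∃ C : Set (Gam m n), IsCompact C ∧ C ⊆ H ∧
      ∀ h ∈ H, ∃ c ∈ C, g⁻¹ * (c⁻¹ * h) * g ∈ B3 m n := by
  refine cocompact H (B3 m n) (Kc m ×ˢ Kc n ×ˢ Kc n)
    ((Kc_compact m).prod ((Kc_compact n).prod (Kc_compact n))) (fun g => ?_) ?_ (B3_closed m n) ?_
  · obtain ⟨k1, a1, b1, c1, d1⟩ := qr m g.1
    obtain ⟨k2, a2, b2, c2, d2⟩ := qr n g.2.1
    obtain ⟨k3, a3, b3, c3, d3⟩ := qr n g.2.2
    exact ⟨(k1, k2, k3), ⟨a1, a2, a3⟩, (b1, b2, b3), ⟨c1, c2, c3⟩, Prod.ext d1 (Prod.ext d2 d3)⟩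
  · rw [E3_ind.isSigmaCompact_iff]
    have : E3 '' (H : Set (Gam m n)) = Prod.snd '' Z := by
      ext u
      constructor
      · rintro ⟨γ, h, rfl⟩
        obtain ⟨x, hx⟩ := (hH γ).1 h
        exact ⟨_, hx, rfl⟩
      · rintro ⟨w, hw, rfl⟩
        obtain ⟨γ, e⟩ := mem_ZU.1 (hU w hw)
        exact ⟨γ, (hH γ).2 ⟨w.1, by rw [e]; exact hw⟩, e⟩
    rw [this]
    exact (isSigmaCompact_univ.of_isClosed_subset hZ.isClosed (subset_univ _)).image continuous_snd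
  · intro g M
    let Z' : Set (((Mt N × ℂ) × W1 m n) × W1 m n) := {w | w.1 ∈ Z ∧ w.2 ∈ ZU m n ∧
      w.2.1.1.BlockTriangular id ∧ w.2.2.1.1.BlockTriangular id ∧ w.2.2.2.1.BlockTriangular id}
    have hZ' : IsAlg Z' := (hZ.comp PMap.id.fst).and (((ZU_alg m n).comp PMap.id.snd).and
      ((IsAlg.tri PMap.id.snd.fst.fst).and ((IsAlg.tri PMap.id.snd.snd.fst.fst).and
        (IsAlg.tri PMap.id.snd.snd.snd.fst))))
    let F : (((Mt N × ℂ) × W1 m n) × W1 m n) → Mt m × Mt n × Mt n := fun w =>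
      (w.1.2.1.1 * g.1 * w.2.1.1, w.1.2.2.1.1 * g.2.1 * w.2.2.1.1, w.1.2.2.2.1 * g.2.2 * w.2.2.2.1)
    have hF : PMap F :=
      ((PMap.id.fst.snd.fst.fst.mul (PMap.const _)).mul PMap.id.snd.fst.fst).prod
        (((PMap.id.fst.snd.snd.fst.fst.mul (PMap.const _)).mul PMap.id.snd.snd.fst.fst).prod
          ((PMap.id.fst.snd.snd.snd.fst.mul (PMap.const _)).mul PMap.id.snd.snd.snd.fst))
    let ι : M → Mt m × Mt n × Mt n := fun x => (x.1.1, x.1.2.1, x.1.2.2)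
    have hι : Continuous ι := by fun_prop
    have e : (Subtype.val : M → Gam m n) ⁻¹' DC H (B3 m n) g = ι ⁻¹' (F '' Z') := by
      ext x
      constructor
      · rintro ⟨h, hh, b, hb, e⟩
        obtain ⟨y, hy⟩ := (hH h).1 hh
        refine ⟨((y, E3 h), E3 b), ⟨hy, mem_ZU.2 ⟨b, rfl⟩, hb⟩, ?_⟩
        simp only [ι, e]; rfl
      · rintro ⟨w, ⟨h1, h2, h3⟩, e⟩
        obtain ⟨h, eh⟩ := mem_ZU.1 (hU _ h1)
        obtain ⟨b, eb⟩ := mem_ZU.1 h2
        rw [← eb] at h3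
        refine ⟨h, (hH h).2 ⟨w.1.1, by rw [eh]; exact h1⟩, b, h3, ?_⟩
        simp only [F, ← eh, ← eb, ι, Prod.ext_iff] at e
        exact Prod.ext (Units.ext e.1.symm) (Prod.ext (Units.ext e.2.1.symm) (Units.ext e.2.2.symm))
    rw [e]
    exact chevalley hZ' hF hι

theorem main {m n N : ℕ} (G : Subgroup (Mt N)ˣ) (S : Set (MvPolynomial (Fin N × Fin N) ℂ))
    (hG : ∀ g : (Mt N)ˣ, g ∈ G ↔ ∀ p ∈ S, MvPolynomial.eval (fun ij => (g : Mt N) ij.1 ij.2) p = 0)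
    (ρ : G →* ((Fin (m + 3) → Mt (n + 3)) →ₗ[ℂ] (Fin (m + 3) → Mt (n + 3))))
    (hρ : ∀ X i k l, ∃ p : MvPolynomial (Option (Fin N × Fin N)) ℂ, ∀ g : G,
      ρ g X i k l = MvPolynomial.eval (fun o => o.elim ((g : (Mt N)ˣ) : Mt N).det⁻¹
        fun ij => ((g : (Mt N)ˣ) : Mt N) ij.1 ij.2) p)
    (hN : ∀ v, 0 ∈ closure (range fun g => ρ g v) ↔ v ∈ Sing (Fin (m + 3)) (Fin (n + 3))) :
    False := by
  choose p hp using hρ
  have hmul : ∀ g h v, ρ (g * h) v = ρ g (ρ h v) := fun g h v => by rw [map_mul]; rfl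
  have hone : ∀ v, ρ 1 v = v := fun v => by rw [map_one]; rfl
  let H : Subgroup (Gam (m + 3) (n + 3)) :=
    { carrier := {γ | ∃ g, ∀ X, ρ g X = ac γ X}
      mul_mem' := by
        rintro a b ⟨g, hg⟩ ⟨h, hh⟩
        exact ⟨g * h, fun X => by rw [hmul, hh, hg, ac_mul]⟩
      one_mem' := ⟨1, fun X => by rw [hone, ac_one]⟩
      inv_mem' := by
        rintro a ⟨g, hg⟩
        refine ⟨g⁻¹, fun X => ?_⟩
        conv_lhs => rw [← ac_one X, ← mul_inv_cancel a, ac_mul, ← hg, ← hmul, inv_mul_cancel, hone] }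
  let Z : Set ((Mt N × ℂ) × W1 (m + 3) (n + 3)) := {w |
    (∀ q ∈ S, MvPolynomial.eval (fun ij => w.1.1 ij.1 ij.2) q = 0) ∧ w.1.2 * w.1.1.det = 1 ∧
    w.2 ∈ ZU _ _ ∧ ∀ X i k l, MvPolynomial.eval (fun o => o.elim w.1.2 fun ij => w.1.1 ij.1 ij.2)
      (p X i k l) = act w.2.1.1 w.2.2.1.1 w.2.2.2.1 X i k l}
  have hZ : IsAlg Z := by
    have I : PMap fun w : (Mt N × ℂ) × W1 (m + 3) (n + 3) => w := PMap.id
    refine (IsAlg.all fun q => IsAlg.all fun _ => IsAlg.zero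
      (Pol.eval (fun ij => I.fst.fst.entry _ _) q)).and
      ((IsAlg.eq (Pol.mul I.fst.snd.pol I.fst.fst.det) (Pol.const _)).and
        (((ZU_alg _ _).comp I.snd).and (IsAlg.all fun X => IsAlg.all fun i =>
          IsAlg.all fun k => IsAlg.all fun l => IsAlg.eq (Pol.eval (fun o => ?_) _) ?_)))
    · cases o with
      | none => exact I.fst.snd.pol
      | some ij => exact I.fst.fst.entry _ _
    · simp only [act, Matrix.sum_apply, Matrix.smul_apply, smul_eq_mul]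
      refine Pol.sum _ fun j => Pol.mul (I.snd.fst.fst.entry _ _) (PMap.entry ?_ k l)
      exact (I.snd.snd.fst.fst.mul (PMap.const _)).mul
        (PMap.matrix fun a b => I.snd.snd.snd.fst.entry b a)
  have hH : ∀ γ, γ ∈ H ↔ ∃ x, (x, E3 γ) ∈ Z := by
    intro γ
    constructor
    · rintro ⟨g, hg⟩
      refine ⟨(((g : (Mt N)ˣ) : Mt N), ((g : (Mt N)ˣ) : Mt N).det⁻¹), (hG _).1 g.2,
        inv_mul_cancel₀ ((isUnit_iff_isUnit_det _).1 (g : (Mt N)ˣ).isUnit).ne_zero,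
        mem_ZU.2 ⟨γ, rfl⟩, fun X i k l => ?_⟩
      exact (hp X i k l g).symm.trans (by rw [hg]; rfl)
    · rintro ⟨x, h1, h2, -, h4⟩
      have hx : IsUnit x.1 := (isUnit_iff_isUnit_det _).2 (IsUnit.of_mul_eq_one_right _ h2)
      refine ⟨⟨hx.unit, (hG _).2 h1⟩, fun X => ?_⟩
      ext i k l
      rw [hp]
      have : x.1.det⁻¹ = x.2 := (eq_inv_of_mul_eq_one_left h2).symm
      simp only [IsUnit.unit_spec, this]
      exact h4 X i k l
  obtain ⟨g, C, hC, hCH, hcov⟩ := cocompact_alg H hZ hH fun w hw => hw.2.2.1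
  have hpres : ∀ g, ∀ X ∈ Sing (Fin (m + 3)) (Fin (n + 3)),
      ρ g X ∈ Sing (Fin (m + 3)) (Fin (n + 3)) := by
    intro g X hX
    rw [← hN] at hX ⊢
    refine closure_mono ?_ hX
    rintro _ ⟨h, rfl⟩
    exact ⟨h * g⁻¹, by simp only; rw [← hmul, inv_mul_cancel_right]⟩
  have htype : ∀ g, ∃ γ : Gam (m + 3) (n + 3),
      (∀ X, ρ g X = ac γ X) ∨ (∀ X, trE _ _ (ρ g X) = ac γ X) := by
    intro g
    obtain ⟨P, Q, S, a, b, c, d⟩ := struct (LinearEquiv.ofLinear (ρ g) (ρ g⁻¹)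
      (LinearMap.ext fun v => by simp [← hmul])
      (LinearMap.ext fun v => by simp [← hmul])) (hpres g)
    exact ⟨(a.unit, b.unit, c.unit), d⟩
  have hsmall : ∀ X ∈ Sing (Fin (m + 3)) (Fin (n + 3)), ∀ U ∈ 𝓝 (0 : Fin (m + 3) → Mt (n + 3)),
      ∃ γ ∈ H, ac γ X ∈ U := by
    intro X hX U hU
    rw [← hN, mem_closure_iff_nhds] at hX
    by_cases h : ∃ g0, ∃ γ0 : Gam (m + 3) (n + 3), ∀ X, trE _ _ (ρ g0 X) = ac γ0 X
    · obtain ⟨g0, γ0, h0⟩ := h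
      have hU' : (ρ g0) ⁻¹' U ∈ 𝓝 (0 : Fin (m + 3) → Mt (n + 3)) :=
        (ρ g0).continuous_of_finiteDimensional.continuousAt.preimage_mem_nhds (by simpa)
      obtain ⟨_, ⟨h1, h2⟩, g, rfl⟩ := hX _ (inter_mem hU hU')
      obtain ⟨γ, hγ | hγ⟩ := htype g
      · exact ⟨γ, ⟨g, hγ⟩, hγ X ▸ h1⟩
      · have : ∀ X, ρ (g0 * g) X = ac ((γ0.1, γ0.2.2, γ0.2.1) * γ) X := fun X => by
          rw [hmul, ac_mul, ← hγ]
          exact (congrArg (trE _ _) (h0 (ρ g X))).trans (act_tr _ _ _ (trE _ _ (ρ g X)))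
        exact ⟨_, ⟨_, this⟩, by rw [← this, hmul]; exact h2⟩
    · obtain ⟨_, h1, g, rfl⟩ := hX _ hU
      obtain ⟨γ, hγ | hγ⟩ := htype g
      · exact ⟨γ, ⟨g, hγ⟩, hγ X ▸ h1⟩
      · exact absurd ⟨g, γ, hγ⟩ h
  have hev : ∀ᶠ v in 𝓝 (0 : Fin (m + 3) → Mt (n + 3)), ∀ c ∈ C,
      ∀ i k l, ‖ac (g⁻¹ * c⁻¹) v i k l‖ < 1 := by
    refine hC.eventually_forall_of_forall_eventually fun c _ => ?_
    have hc : Continuous fun z : (Fin (m + 3) → Mt (n + 3)) × Gam (m + 3) (n + 3) =>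
        ac (g⁻¹ * z.2⁻¹) z.1 := ac_cont.comp (f := fun z : (Fin (m + 3) → Mt (n + 3)) ×
          Gam (m + 3) (n + 3) => (g⁻¹ * z.2⁻¹, z.1)) (by fun_prop)
    simp only [eventually_all]
    intro i k l
    refine (((continuous_apply i).comp hc).matrix_elem k l).norm.continuousAt.eventually_lt
      continuousAt_const ?_
    simp [ac_zero]
  obtain ⟨h, hh, hs⟩ := hsmall (ac g (X0 m n)) (act_sing _ _ _ (X0_sing m n)) _ hev
  obtain ⟨c, hc, hB⟩ := hcov h hh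
  obtain ⟨Y, hY, hlim⟩ := tri_main hB.1 hB.2.1 hB.2.2 (Units.isUnit _) (Units.isUnit _) (by
    have := hs c hc
    rw [← ac_mul, ← ac_mul, show g⁻¹ * c⁻¹ * h * g = g⁻¹ * (c⁻¹ * h) * g by group] at this
    exact this)
  have hη : c⁻¹ * h ∈ H := H.mul_mem (H.inv_mem (hCH hc)) hh
  have hlim' : Tendsto (fun j => ac ((g⁻¹ * (c⁻¹ * h) * g) ^ j) Y) atTop (𝓝 0) := by
    refine hlim.congr fun j => ?_
    simp only [ac, Prod.pow_fst, Prod.pow_snd, Units.val_pow_eq_pow_val]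
  have hlim2 : Tendsto (fun j => ac ((c⁻¹ * h) ^ j) (ac g Y)) atTop (𝓝 0) := by
    have := ((ac_cont.comp (Continuous.prodMk_right g)).tendsto 0).comp hlim'
    simp only [Function.comp_def, ac_zero] at this
    refine this.congr fun j => ?_
    have e : (g⁻¹ * (c⁻¹ * h) * g) ^ j = g⁻¹ * (c⁻¹ * h) ^ j * g := by
      simpa using conj_pow (a := g⁻¹) (b := c⁻¹ * h) (i := j)
    rw [← ac_mul, ← ac_mul, e, mul_assoc g⁻¹, mul_inv_cancel_left]
  have : ac g Y ∈ Sing (Fin (m + 3)) (Fin (n + 3)) := by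
    rw [← hN]
    refine mem_closure_of_tendsto hlim2 (Eventually.of_forall fun j => ?_)
    obtain ⟨g', hg'⟩ := H.pow_mem hη j
    exact ⟨g', hg' _⟩
  refine hY ?_
  have h2 : ac g⁻¹ (ac g Y) ∈ Sing (Fin (m + 3)) (Fin (n + 3)) := act_sing _ _ _ this
  rwa [← ac_mul, inv_mul_cancel, ac_one] at h2

end Pool.Agent.H.MP_296aa8_al
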