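import Pool.Agent.H.MP_296aa8_al.Dieu

namespace Pool.Agent.H.MP_296aa8_al
open Matrix Module

variable {μ ι : Type} [Fintype μ] [DecidableEq μ] [Fintype ι] [DecidableEq ι]

def Sing (μ ι : Type) [Fintype μ] [Fintype ι] [DecidableEq ι] : Set (μ → Matrix ι ι ℂ) :=
  {X | ∀ c : μ → ℂ, (∑ i, c i • X i).det = 0}

def act (P : Matrix μ μ ℂ) (Q S : Matrix ι ι ℂ) (X : μ → Matrix ι ι ℂ) : μ → Matrix ι ι ℂ :=
  fun i => ∑ j, P i j • (Q * X j * Sᵀ)

def trE (μ ι : Type) : (μ → Matrix ι ι ℂ) ≃ₗ[ℂ] (μ → Matrix ι ι ℂ) where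
  toFun X := fun i => (X i)ᵀ
  invFun X := fun i => (X i)ᵀ
  map_add' _ _ := rfl
  map_smul' _ _ := rfl
  left_inv _ := rfl
  right_inv _ := rfl

omit [DecidableEq μ] in
lemma tr_sing {X : μ → Matrix ι ι ℂ} (h : X ∈ Sing μ ι) : trE μ ι X ∈ Sing μ ι := by
  intro c
  have : ∑ i, c i • trE μ ι X i = (∑ i, c i • X i)ᵀ := by
    rw [transpose_sum]; rfl
  rw [this, det_transpose]; exact h c

lemma maxsub [Nonempty μ] (W : Submodule ℂ (μ → Matrix ι ι ℂ)) (hW : ∀ X ∈ W, X ∈ Sing μ ι)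
    (hd : Fintype.card μ * (Fintype.card ι * Fintype.card ι) ≤
      finrank ℂ W + Fintype.card μ * Fintype.card ι) :
    ∃ x : ι → ℂ, x ≠ 0 ∧ ((∀ X ∈ W, ∀ i, X i *ᵥ x = 0) ∨ (∀ X ∈ W, ∀ i, x ᵥ* X i = 0)) := by
  let Wi : μ → Submodule ℂ (Matrix ι ι ℂ) := fun i => W.map (LinearMap.proj i)
  have h1 : ∀ i, finrank ℂ (Wi i) + Fintype.card ι ≤ Fintype.card ι * Fintype.card ι := fun i =>
    (dieu (Wi i) (by
      rintro _ ⟨X, hX, rfl⟩
      have := hW X hX (Pi.single i 1)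
      rw [Finset.sum_eq_single i (fun j _ hj => by simp [hj]) (by simp)] at this
      simpa using this)).1
  let ψ : W →ₗ[ℂ] (∀ i, Wi i) := LinearMap.pi fun i =>
    ((LinearMap.proj i).comp W.subtype).codRestrict (Wi i) fun X => ⟨X, X.2, rfl⟩
  have hψ : ∀ X i, ((ψ X i : Wi i) : Matrix ι ι ℂ) = (X : μ → Matrix ι ι ℂ) i := fun _ _ => rfl
  have hinj : Function.Injective ψ := fun X Y h =>
    Subtype.ext (funext fun i => by rw [← hψ, ← hψ, h])
  have hle := LinearMap.finrank_le_finrank_of_injective hinj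
  have hsum : ∑ i, finrank ℂ (Wi i) + Fintype.card μ * Fintype.card ι ≤
      Fintype.card μ * (Fintype.card ι * Fintype.card ι) := by
    have := Finset.sum_le_sum fun i (_ : i ∈ Finset.univ) => h1 i
    simpa [Finset.sum_add_distrib] using this
  have hsurj : Function.Surjective ψ :=
    (LinearMap.injective_iff_surjective_of_finrank_eq_finrank (by
      rw [finrank_pi_fintype] at hle ⊢; omega)).1 hinj
  rw [finrank_pi_fintype] at hle
  let U : Submodule ℂ (Matrix ι ι ℂ) := W.map (∑ i, LinearMap.proj i)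
  have hU : ∀ i, Wi i ≤ U := by
    intro i A hA
    obtain ⟨X, hX⟩ := hsurj (Pi.single i ⟨A, hA⟩)
    refine ⟨X, X.2, ?_⟩
    rw [LinearMap.sum_apply, Finset.sum_eq_single i (fun j _ hj => ?_) (by simp)]
    · change (X : μ → Matrix ι ι ℂ) i = A
      rw [← hψ, hX]; simp
    · change (X : μ → Matrix ι ι ℂ) j = 0
      rw [← hψ, hX]; simp [hj]
  obtain ⟨h2, h3⟩ := dieu U (by
    rintro _ ⟨X, hX, rfl⟩
    simpa using hW X hX 1)
  have h4 : ∑ i, finrank ℂ (Wi i) ≤ Fintype.card μ * finrank ℂ U := by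
    have := Finset.sum_le_sum fun i (_ : i ∈ Finset.univ) => Submodule.finrank_mono (hU i)
    simpa using this
  have hm : 0 < Fintype.card μ := Fintype.card_pos
  obtain ⟨x, hx, h⟩ := h3 (by
    refine le_antisymm h2 (Nat.le_of_mul_le_mul_left ?_ hm)
    rw [mul_add]; omega)
  exact ⟨x, hx, h.imp (fun h X hX i => h _ (hU i ⟨X, hX, rfl⟩))
    (fun h X hX i => h _ (hU i ⟨X, hX, rfl⟩))⟩

def LtoL (g : (μ → Matrix ι ι ℂ) ≃ₗ[ℂ] (μ → Matrix ι ι ℂ)) (x : ι → ℂ) : Prop :=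
  ∃ z : ι → ℂ, z ≠ 0 ∧ ∀ X : μ → Matrix ι ι ℂ, (∀ i, X i *ᵥ x = 0) → ∀ i, g X i *ᵥ z = 0

lemma ltol_or [Nonempty μ] (g : (μ → Matrix ι ι ℂ) ≃ₗ[ℂ] (μ → Matrix ι ι ℂ))
    (hg : ∀ X ∈ Sing μ ι, g X ∈ Sing μ ι) (x : ι → ℂ) (hx : x ≠ 0) :
    LtoL g x ∨ LtoL (g.trans (trE μ ι)) x := by
  let e : (μ → Matrix ι ι ℂ) →ₗ[ℂ] (μ → ι → ℂ) :=
    { toFun := fun X i => X i *ᵥ x
      map_add' := fun X Y => by ext i : 1; simp [add_mulVec]
      map_smul' := fun c X => by ext i : 1; simp [smul_mulVec] }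
  have h1 := e.finrank_range_add_finrank_ker
  have h2 := Submodule.finrank_le (LinearMap.range e)
  simp only [finrank_pi_fintype, finrank_matrix, finrank_self, Finset.sum_const, smul_eq_mul,
    mul_one, Finset.card_univ] at h1 h2
  have hk : ∀ X, X ∈ LinearMap.ker e ↔ ∀ i, X i *ᵥ x = 0 := fun X =>
    LinearMap.mem_ker.trans funext_iff
  have h3 : ∀ Y ∈ (LinearMap.ker e).map g.toLinearMap, Y ∈ Sing μ ι := by
    intro Y hY
    obtain ⟨X, hX, rfl⟩ := Submodule.mem_map.1 hY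
    refine hg X fun c => exists_mulVec_eq_zero_iff.1 ⟨x, hx, ?_⟩
    simp only [sum_mulVec, smul_mulVec, (hk X).1 hX, smul_zero, Finset.sum_const_zero]
  obtain ⟨z, hz, h⟩ := maxsub _ h3 (by rw [LinearEquiv.finrank_map_eq]; omega)
  rcases h with h | h
  · exact Or.inl ⟨z, hz, fun X hX => h (g X) (Submodule.mem_map_of_mem ((hk X).2 hX))⟩
  · refine Or.inr ⟨z, hz, fun X hX i => ?_⟩
    change (g X i)ᵀ *ᵥ z = 0
    rw [mulVec_transpose]; exact h (g X) (Submodule.mem_map_of_mem ((hk X).2 hX)) i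

omit [Fintype μ] [DecidableEq μ] in
lemma not_both [Nonempty μ] (g : (μ → Matrix ι ι ℂ) ≃ₗ[ℂ] (μ → Matrix ι ι ℂ))
    {x x' : ι → ℂ} (ξ : ι → ℂ) (h : (ξ ⬝ᵥ x = 1 ∧ ξ ⬝ᵥ x' = 0) ∨ (ξ ⬝ᵥ x' = 1 ∧ ξ ⬝ᵥ x = 0))
    (h1 : LtoL g x) (h2 : LtoL (g.trans (trE μ ι)) x') : False := by
  obtain ⟨z, hz, h1⟩ := h1
  obtain ⟨y, hy, h2⟩ := h2
  obtain ⟨k, hk⟩ := Function.ne_iff.1 hy
  obtain ⟨l, hl⟩ := Function.ne_iff.1 hz
  obtain ⟨X, hX⟩ := g.surjective fun _ => single k l 1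
  obtain ⟨X1, X2, rfl, a1, a2⟩ : ∃ X1 X2 : μ → Matrix ι ι ℂ, X = X1 + X2 ∧ (∀ i, X1 i *ᵥ x = 0) ∧
      ∀ i, X2 i *ᵥ x' = 0 := by
    rcases h with ⟨b1, b2⟩ | ⟨b1, b2⟩
    · refine ⟨fun i => X i - X i * vecMulVec x ξ, fun i => X i * vecMulVec x ξ,
        by ext i : 1; simp, fun i => ?_, fun i => ?_⟩
      · simp [sub_mulVec, ← mulVec_mulVec, vecMulVec_mulVec, b1]
      · simp [← mulVec_mulVec, vecMulVec_mulVec, b2]
    · refine ⟨fun i => X i * vecMulVec x' ξ, fun i => X i - X i * vecMulVec x' ξ,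
        by ext i : 1; simp, fun i => ?_, fun i => ?_⟩
      · simp [← mulVec_mulVec, vecMulVec_mulVec, b2]
      · simp [sub_mulVec, ← mulVec_mulVec, vecMulVec_mulVec, b1]
  obtain ⟨i⟩ := ‹Nonempty μ›
  have c1 := h1 X1 a1 i
  have c2 : (g X2 i)ᵀ *ᵥ y = 0 := h2 X2 a2 i
  rw [mulVec_transpose] at c2
  have c3 : y ⬝ᵥ (g (X1 + X2) i *ᵥ z) = 0 := by
    rw [map_add, Pi.add_apply, add_mulVec, c1, zero_add, dotProduct_mulVec, c2, zero_dotProduct]
  rw [hX, single_mulVec] at c3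
  simp only [one_mul, dotProduct, Function.update_apply, Pi.zero_apply, mul_ite, mul_zero,
    Finset.sum_ite_eq', Finset.mem_univ, if_true] at c3
  exact mul_ne_zero hk hl c3

def AllL (g : (μ → Matrix ι ι ℂ) ≃ₗ[ℂ] (μ → Matrix ι ι ℂ)) : Prop :=
  LtoL g 1 ∧ ∀ j, LtoL g (Pi.single j 1)

lemma allL_or [Nonempty μ] [Nontrivial ι] (g : (μ → Matrix ι ι ℂ) ≃ₗ[ℂ] (μ → Matrix ι ι ℂ))
    (hg : ∀ X ∈ Sing μ ι, g X ∈ Sing μ ι) : AllL g ∨ AllL (g.trans (trE μ ι)) := by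
  have hs : ∀ j : ι, (Pi.single j 1 : ι → ℂ) ≠ 0 := fun j h => by simpa using congrFun h j
  rcases ltol_or g hg 1 one_ne_zero with h | h
  · refine Or.inl ⟨h, fun j => (ltol_or g hg _ (hs j)).resolve_right fun h' => ?_⟩
    obtain ⟨j', hj'⟩ := exists_ne j
    exact not_both g (Pi.single j' 1) (Or.inl ⟨by simp, by simp [hj']⟩) h h'
  · refine Or.inr ⟨h, fun j => (ltol_or g hg _ (hs j)).resolve_left fun h' => ?_⟩
    obtain ⟨j', hj'⟩ := exists_ne j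
    exact not_both g (Pi.single j' 1) (Or.inr ⟨by simp, by simp [hj']⟩) h' h

def colT (l : ι) (a : μ → ι → ℂ) : μ → Matrix ι ι ℂ :=
  fun i => of fun k l' => if l' = l then a i k else 0

omit [Fintype μ] [DecidableEq μ] in
lemma colstruct [Nonempty μ] [Nonempty ι] (g : (μ → Matrix ι ι ℂ) ≃ₗ[ℂ] (μ → Matrix ι ι ℂ))
    (h : AllL g) : ∃ Z : Matrix ι ι ℂ, IsUnit Z ∧ ∃ A : (μ → ι → ℂ) → μ → ι → ℂ,
      ∀ X i k l, (g X i * Z) k l = A (fun i' k' => X i' k' l) i k := by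
  obtain ⟨⟨z, hz, h0⟩, h⟩ := h
  choose zz hzz h using h
  obtain ⟨l0⟩ := ‹Nonempty ι›
  obtain ⟨i0⟩ := ‹Nonempty μ›
  have hnz : ∀ w : ι → ℂ, (∀ X, g X i0 *ᵥ w = 0) → w = 0 := fun w hw => by
    obtain ⟨X, hX⟩ := g.surjective fun _ => 1
    simpa [hX] using hw X
  have c1 : ∀ j X i, g X i *ᵥ zz j = g (colT j fun i' k' => X i' k' j) i *ᵥ zz j := by
    intro j X i
    have := h j (X - colT j fun i' k' => X i' k' j) (fun i => by ext k; simp [colT]) i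
    rwa [map_sub, Pi.sub_apply, sub_mulVec, sub_eq_zero] at this
  have c2 : ∀ X i, g X i *ᵥ z = g (colT l0 fun i' => X i' *ᵥ 1) i *ᵥ z := by
    intro X i
    have := h0 (X - colT l0 fun i' => X i' *ᵥ 1) (fun i => by
      ext k; simp [colT, mulVec, dotProduct]) i
    rwa [map_sub, Pi.sub_apply, sub_mulVec, sub_eq_zero] at this
  let Z0 : Matrix ι ι ℂ := of fun k j => zz j k
  have c3 : ∀ c j a i, g (colT j a) i *ᵥ (Z0 *ᵥ c) = c j • (g (colT j a) i *ᵥ zz j) := by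
    intro c j a i
    have : Z0 *ᵥ c = ∑ l, c l • zz l := by
      ext k; simp [Z0, mulVec, dotProduct, mul_comm]
    rw [this, mulVec_sum, Finset.sum_eq_single j (fun l _ hl => ?_) (by simp), mulVec_smul]
    rw [mulVec_smul, h l _ (fun i => by ext k; simp [colT, hl]) i, smul_zero]
  have hZ0 : IsUnit Z0 := by
    rw [← mulVec_injective_iff_isUnit]
    refine (injective_iff_map_eq_zero Z0.mulVecLin).2 fun c hc => funext fun j => ?_
    by_contra hj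
    refine hzz j (hnz _ fun X => ?_)
    have := c3 c j (fun i' k' => X i' k' j) i0
    rw [show Z0 *ᵥ c = 0 from hc, mulVec_zero] at this
    rw [c1]; exact (smul_eq_zero.1 this.symm).resolve_left hj
  obtain ⟨c, hc⟩ := mulVec_surjective_iff_isUnit.2 hZ0 z
  have c4 : ∀ j a i, c j • (g (colT j a) i *ᵥ zz j) = g (colT l0 a) i *ᵥ z := by
    intro j a i
    have : (fun i' => colT j a i' *ᵥ 1) = a := by
      ext i' k; simp [colT, mulVec, dotProduct]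
    rw [← c3, hc, c2, this]
  refine ⟨Z0 * diagonal c, hZ0.mul ?_, fun a i => g (colT l0 a) i *ᵥ z, fun X i k l => ?_⟩
  · rw [isUnit_iff_isUnit_det, det_diagonal, isUnit_iff_ne_zero]
    refine Finset.prod_ne_zero_iff.2 fun j _ hj => hz (hnz _ fun X => ?_)
    rw [c2, ← c4 j, hj, zero_smul]
  · simp only
    rw [← c4 l, ← c1, ← Matrix.mul_assoc, mul_diagonal, mul_comm]
    simp [Z0, mul_apply, mulVec, dotProduct]

omit [DecidableEq μ] [Fintype μ] in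
lemma not_allL_tr [Nonempty μ] [Nontrivial ι] (g : (μ → Matrix ι ι ℂ) ≃ₗ[ℂ] (μ → Matrix ι ι ℂ))
    (h : AllL g) (h' : AllL ((trE μ ι).trans g)) : False := by
  obtain ⟨Z, hZ, A, hA⟩ := colstruct g h
  obtain ⟨z, hz, h1⟩ := h'.1
  obtain ⟨c, rfl⟩ := mulVec_surjective_iff_isUnit.2 hZ z
  obtain ⟨j, hj⟩ : ∃ j, c j ≠ 0 := by
    by_contra hc
    push Not at hc
    exact hz (by rw [show c = 0 from funext hc, mulVec_zero])
  obtain ⟨k1, k2, hk⟩ := exists_pair_ne ι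
  let a : μ → ι → ℂ := fun _ => Pi.single k1 1 - Pi.single k2 1
  have hA0 : ∀ i k, A 0 i k = 0 := fun i k => by
    have := hA 0 i k j
    rw [map_zero, Pi.zero_apply, Matrix.zero_mul] at this
    exact this.symm
  have h2 : ∀ i, g (colT j a) i * Z = colT j (A a) i := by
    intro i; ext k l
    rw [hA]
    by_cases hl : l = j
    · simp [colT, hl]
    · simp only [colT, of_apply, hl, if_false]; exact hA0 i k
  have h3 : ∀ i, g (colT j a) i *ᵥ (Z *ᵥ c) = 0 := h1 (trE μ ι (colT j a)) fun i => by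
    ext l
    change ((colT j a i)ᵀ *ᵥ 1) l = 0
    by_cases hl : l = j <;> simp [colT, mulVec, dotProduct, a, hl]
  have h4 : g (colT j a) = 0 := by
    ext1 i
    refine hZ.mul_right_cancel ?_
    have := h3 i
    rw [mulVec_mulVec, h2] at this
    rw [h2, Pi.zero_apply, Matrix.zero_mul]
    ext k l
    have h5 := congrFun this k
    simp [colT, mulVec, dotProduct, hj] at h5
    simp [colT, h5]
  obtain ⟨i⟩ := ‹Nonempty μ›
  have := congrFun (congrFun (congrFun (g.map_eq_zero_iff.1 h4) i) k1) j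
  simp [colT, a, hk] at this

lemma struct_of_allL [Nonempty μ] [Nontrivial ι]
    (g : (μ → Matrix ι ι ℂ) ≃ₗ[ℂ] (μ → Matrix ι ι ℂ)) (hg : ∀ X ∈ Sing μ ι, g X ∈ Sing μ ι)
    (h : AllL g) : ∃ P Q S, IsUnit P ∧ IsUnit Q ∧ IsUnit S ∧ ∀ X, g X = act P Q S X := by
  have h' := (allL_or ((trE μ ι).trans g) fun X hX => hg _ (tr_sing hX)).resolve_left
    (not_allL_tr g h)
  obtain ⟨Z, hZ, A, hA⟩ := colstruct g h
  obtain ⟨Z', hZ', A', hA'⟩ := colstruct _ h'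
  obtain ⟨k0⟩ : Nonempty ι := inferInstance
  have r1 : ∀ X i k l, (Z'ᵀ * g X i * Z) k l =
      (Z'ᵀ *ᵥ A (fun i' k' => X i' k' l) i) k := by
    intro X i k l
    rw [Matrix.mul_assoc, mul_apply]
    simp only [hA, mulVec, dotProduct]
  have r2 : ∀ X i k l, (Z'ᵀ * g X i * Z) k l =
      (A' (fun i' l' => X i' k l') i ᵥ* Z) l := by
    intro X i k l
    rw [mul_apply]
    refine Finset.sum_congr rfl fun l' _ => ?_
    congr 1
    have := hA' (trE μ ι X) i l' k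
    rw [← transpose_apply (Z'ᵀ * g X i), transpose_mul, transpose_transpose]
    exact this
  let P : Matrix μ μ ℂ := of fun i j => (Z'ᵀ * g (Pi.single j (single k0 k0 1)) i * Z) k0 k0
  have r3 : ∀ X i, Z'ᵀ * g X i * Z = ∑ j, P i j • X j := by
    intro X i; ext k l
    have e1 : (Z'ᵀ * g X i * Z) k l =
        (Z'ᵀ * g (colT k0 fun i' k' => X i' k' l) i * Z) k k0 := by
      rw [r1, r1]; simp [colT]
    have e2 : (Z'ᵀ * g (colT k0 fun i' k' => X i' k' l) i * Z) k k0 =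
        (Z'ᵀ * g (∑ j, X j k l • Pi.single j (single k0 k0 1)) i * Z) k0 k0 := by
      rw [r2, r2]
      congr 2
      ext i' l'
      rw [Finset.sum_apply, Finset.sum_eq_single i' (fun j _ hj => by simp [hj.symm]) (by simp)]
      by_cases hl : l' = k0
      · simp [colT, hl]
      · simp [colT, hl, Ne.symm hl]
    rw [e1, e2]
    simp [P, Matrix.mul_sum, Matrix.sum_mul, Matrix.sum_apply, mul_comm]
  have hZt : IsUnit Z'ᵀ := by rwa [isUnit_transpose]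
  have d1 : IsUnit Z'ᵀ.det := (isUnit_iff_isUnit_det _).1 hZt
  have d2 : IsUnit Z.det := (isUnit_iff_isUnit_det _).1 hZ
  have r4 : ∀ X, g X = act P Z'ᵀ⁻¹ Z⁻¹ᵀ X := by
    intro X; ext1 i
    have : g X i = Z'ᵀ⁻¹ * (Z'ᵀ * g X i * Z) * Z⁻¹ := by
      rw [Matrix.mul_assoc Z'ᵀ, nonsing_inv_mul_cancel_left _ _ d1,
        mul_nonsing_inv_cancel_right _ _ d2]
    rw [this, r3]
    simp [act, Matrix.mul_sum, Matrix.sum_mul]
  refine ⟨P, Z'ᵀ⁻¹, Z⁻¹ᵀ, ?_, isUnit_nonsing_inv_iff.2 hZt, by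
    rw [isUnit_transpose]; exact isUnit_nonsing_inv_iff.2 hZ, r4⟩
  rw [← mulVec_injective_iff_isUnit]
  refine (injective_iff_map_eq_zero P.mulVecLin).2 fun c hc => funext fun j => ?_
  have h0 : g (fun j => c j • (1 : Matrix ι ι ℂ)) = 0 := by
    ext1 i
    refine hZt.mul_left_cancel (hZ.mul_right_cancel ?_)
    rw [r3]
    have : ∑ j, P i j * c j = 0 := congrFun hc i
    simp [smul_smul, ← Finset.sum_smul, this]
  simpa using congrFun (congrFun (congrFun (g.map_eq_zero_iff.1 h0) j) k0) k0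

theorem struct [Nonempty μ] [Nontrivial ι]
    (g : (μ → Matrix ι ι ℂ) ≃ₗ[ℂ] (μ → Matrix ι ι ℂ)) (hg : ∀ X ∈ Sing μ ι, g X ∈ Sing μ ι) :
    ∃ P Q S, IsUnit P ∧ IsUnit Q ∧ IsUnit S ∧
      ((∀ X, g X = act P Q S X) ∨ (∀ X, trE μ ι (g X) = act P Q S X)) := by
  rcases allL_or g hg with h | h
  · obtain ⟨P, Q, S, a, b, c, d⟩ := struct_of_allL g hg h
    exact ⟨P, Q, S, a, b, c, Or.inl d⟩
  · obtain ⟨P, Q, S, a, b, c, d⟩ := struct_of_allL (g.trans (trE μ ι))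
      (fun X hX => tr_sing (hg X hX)) h
    exact ⟨P, Q, S, a, b, c, Or.inr d⟩

end Pool.Agent.H.MP_296aa8_al
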