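import Pool.Agent.H.MP_296aa8_al.Struct

namespace Pool.Agent.H.MP_296aa8_al
open Matrix Module Filter Topology

lemma tri_apply {n : ℕ} {M : Matrix (Fin n) (Fin n) ℂ} (hM : M.BlockTriangular id)
    (y : Fin n → ℂ) (l : Fin n) (h : ∀ l', l < l' → y l' = 0) : (M *ᵥ y) l = M l l * y l := by
  simp only [mulVec, dotProduct]
  refine Finset.sum_eq_single l (fun l' _ hl => ?_) (by simp)
  rcases lt_or_gt_of_ne hl with h1 | h1
  · rw [hM h1, zero_mul]
  · rw [h l' h1, mul_zero]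

lemma fitting {n : ℕ} {M : Matrix (Fin n) (Fin n) ℂ} (hM : M.BlockTriangular id) (r : ℕ) :
    ∀ y : Fin n → ℂ, (∀ l : Fin n, r ≤ l → y l = 0) → ∃ z : Fin n → ℂ,
      (∀ l : Fin n, r ≤ l → z l = 0) ∧ ∃ N, M ^ N *ᵥ (y + M *ᵥ z) = 0 := by
  induction r with
  | zero =>
    intro y hy
    exact ⟨0, by simp, 0, by ext l; simp [hy l]⟩
  | succ r ih =>
    intro y hy
    by_cases hr : r < n
    swap
    · obtain ⟨z, hz, h⟩ := ih y fun l hl => absurd l.2 (by omega)
      exact ⟨z, fun l hl => hz l (by omega), h⟩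
    let k : Fin n := ⟨r, hr⟩
    by_cases h0 : M k k = 0
    · obtain ⟨z, hz, N, h⟩ := ih (M *ᵥ y) fun l hl => by
        rw [tri_apply hM y l fun l' hl' => hy l' (by have : (l : ℕ) < l' := hl'; omega)]
        by_cases e : l = k
        · rw [e, h0, zero_mul]
        · rw [hy l (by have : (l : ℕ) ≠ r := fun e' => e (Fin.ext e'); omega), mul_zero]
      obtain ⟨z', hz', N', h'⟩ := ih (-z) fun l hl => by simp [hz l hl]
      refine ⟨z', fun l hl => hz' l (by omega), N' + (N + 1), ?_⟩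
      have e : y + M *ᵥ z' = (y + z) + (-z + M *ᵥ z') := by abel
      rw [e, mulVec_add]
      have a1 : M ^ (N' + (N + 1)) *ᵥ (y + z) = 0 := by
        rw [pow_add, pow_succ, ← mulVec_mulVec, ← mulVec_mulVec, mulVec_add M, h, mulVec_zero]
      have a2 : M ^ (N' + (N + 1)) *ᵥ (-z + M *ᵥ z') = 0 := by
        rw [add_comm N', pow_add, ← mulVec_mulVec, h', mulVec_zero]
      rw [a1, a2, add_zero]
    · let z1 : Fin n → ℂ := Pi.single k (-(y k / M k k))
      have hz1 : ∀ l : Fin n, r + 1 ≤ l → z1 l = 0 := fun l hl => by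
        have : l ≠ k := fun e => by rw [e] at hl; simp [k] at hl
        simp [z1, this]
      obtain ⟨z, hz, N, h⟩ := ih (y + M *ᵥ z1) fun l hl => by
        rw [Pi.add_apply,
          tri_apply hM z1 l fun l' hl' => hz1 l' (by have : (l : ℕ) < l' := hl'; omega)]
        by_cases e : l = k
        · rw [e]; simp only [z1, Pi.single_eq_same]; field_simp; ring
        · have : r + 1 ≤ l := by have : (l : ℕ) ≠ r := fun e' => e (Fin.ext e'); omega
          rw [hy l this, hz1 l this]; simp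
      refine ⟨z1 + z, fun l hl => by simp [hz1 l hl, hz l (by omega)], N, ?_⟩
      rw [mulVec_add M, ← add_assoc]; exact h

lemma geneig {n : ℕ} {Q : Matrix (Fin n) (Fin n) ℂ} (hQ : Q.BlockTriangular id) (k : Fin n) :
    ∃ x : Fin n → ℂ, x k = 1 ∧ (∀ l, k < l → x l = 0) ∧
      ∃ N, (Q - Q k k • (1 : Matrix _ _ ℂ)) ^ N *ᵥ x = 0 := by
  have hM : (Q - Q k k • (1 : Matrix (Fin n) (Fin n) ℂ)).BlockTriangular id := fun i j hij => by
    have : i ≠ j := fun e => by simp [e] at hij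
    simp [hQ hij, this]
  obtain ⟨z, hz, N, h⟩ := fitting hM k ((Q - Q k k • (1 : Matrix _ _ ℂ)) *ᵥ Pi.single k 1)
    fun l hl => by
      rw [tri_apply hM _ l fun l' hl' => by
        have : l' ≠ k := fun e => by rw [e] at hl'; exact absurd hl (not_le.2 hl')
        simp [this]]
      by_cases e : l = k
      · simp [e]
      · simp [e]
  refine ⟨Pi.single k 1 + z, by simp [hz k le_rfl], fun l hl => by simp [hz l hl.le, hl.ne'],
    N + 1, ?_⟩
  rw [pow_succ, ← mulVec_mulVec, mulVec_add (Q - _)]; exact h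

lemma rec_tendsto {E : Type} [NormedAddCommGroup E] (a b : ℕ → E) (w : ℝ) (h0 : 0 ≤ w) (hw : w < 1)
    (h : ∀ j, ‖a (j + 1)‖ ≤ w * ‖a j‖ + ‖b j‖) (hb : Tendsto b atTop (𝓝 0)) :
    Tendsto a atTop (𝓝 0) := by
  rw [NormedAddGroup.tendsto_nhds_zero] at hb ⊢
  intro ε hε
  obtain ⟨J, hJ⟩ := eventually_atTop.1 (hb (ε / 2 * (1 - w)) (by have := sub_pos.2 hw; positivity))
  have h1 : ∀ j, ‖a (j + J)‖ ≤ w ^ j * ‖a J‖ + ε / 2 := by
    intro j
    induction j with
    | zero => simp; positivity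
    | succ j ih =>
      have := h (j + J)
      have h2 := hJ (j + J) (by omega)
      have h3 := mul_le_mul_of_nonneg_left ih h0
      rw [show j + 1 + J = j + J + 1 by ring, pow_succ]
      nlinarith
  have h2 : Tendsto (fun j => w ^ j * ‖a J‖) atTop (𝓝 0) := by
    simpa using (tendsto_pow_atTop_nhds_zero_of_lt_one h0 hw).mul_const ‖a J‖
  obtain ⟨J', hJ'⟩ := eventually_atTop.1 (h2.eventually (gt_mem_nhds (half_pos hε)))
  refine eventually_atTop.2 ⟨J' + J, fun j hj => ?_⟩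
  obtain ⟨j, rfl⟩ : ∃ j', j = j' + J := ⟨j - J, by omega⟩
  have := h1 j
  have := hJ' j (by omega)
  linarith

lemma decay {n : ℕ} (M : Matrix (Fin n) (Fin n) ℂ) (q a : ℂ) (h : ‖q‖ < ‖a‖) (N : ℕ) :
    ∀ x : Fin n → ℂ, (M - q • (1 : Matrix _ _ ℂ)) ^ N *ᵥ x = 0 →
      Tendsto (fun j => (a⁻¹) ^ j • (M ^ j *ᵥ x)) atTop (𝓝 0) := by
  have ha : 0 < ‖a‖ := (norm_nonneg _).trans_lt h
  induction N with
  | zero => intro x hx; simp at hx; simp [hx]
  | succ N ih =>
    intro x hx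
    rw [pow_succ, ← mulVec_mulVec] at hx
    have h1 := (ih _ hx).const_smul a⁻¹
    rw [smul_zero] at h1
    refine rec_tendsto _ _ ‖a⁻¹ * q‖ (norm_nonneg _)
      (by rw [norm_mul, norm_inv, inv_mul_lt_iff₀ ha]; simpa) (fun j => ?_) h1
    rw [← norm_smul]
    refine le_trans (le_of_eq ?_) (norm_add_le _ _)
    congr 1
    rw [pow_succ M, ← mulVec_mulVec, sub_mulVec, mulVec_sub, smul_mulVec, one_mulVec, mulVec_smul]
    module

def ten {μ ι : Type} (c : μ → ℂ) (x y : ι → ℂ) : μ → Matrix ι ι ℂ := fun i => c i • vecMulVec x y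

lemma act_ten {μ ι : Type} [Fintype μ] [Fintype ι] (P : Matrix μ μ ℂ) (Q S : Matrix ι ι ℂ)
    (c : μ → ℂ) (x y : ι → ℂ) : act P Q S (ten c x y) = ten (P *ᵥ c) (Q *ᵥ x) (S *ᵥ y) := by
  ext1 i
  simp only [act, ten, Matrix.mul_smul, Matrix.smul_mul, mul_vecMulVec, vecMulVec_mul,
    vecMul_transpose, smul_smul, ← Finset.sum_smul]
  rfl

lemma act_sum {μ ι κ : Type} [Fintype μ] [Fintype ι] [Fintype κ] (P : Matrix μ μ ℂ)
    (Q S : Matrix ι ι ℂ) (X : κ → μ → Matrix ι ι ℂ) :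
    act P Q S (∑ k, X k) = ∑ k, act P Q S (X k) := by
  ext1 i
  simp only [act, Finset.sum_apply, Matrix.mul_sum, Matrix.sum_mul, Finset.smul_sum]
  exact Finset.sum_comm

lemma ten_tendsto {m n : ℕ} (P : Matrix (Fin m) (Fin m) ℂ) (Q S : Matrix (Fin n) (Fin n) ℂ)
    (p q r : ℂ) (hp : p ≠ 0) (hq : q ≠ 0) (h : ‖p * q * r‖ < 1) {c x y} {N1 N2 N3 : ℕ}
    (h1 : (P - p • (1 : Matrix _ _ ℂ)) ^ N1 *ᵥ c = 0)
    (h2 : (Q - q • (1 : Matrix _ _ ℂ)) ^ N2 *ᵥ x = 0)
    (h3 : (S - r • (1 : Matrix _ _ ℂ)) ^ N3 *ᵥ y = 0) :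
    Tendsto (fun j => act (P ^ j) (Q ^ j) (S ^ j) (ten c x y)) atTop (𝓝 0) := by
  set w := ‖p * q * r‖ with hw
  have w0 : 0 ≤ w := norm_nonneg _
  let t : ℝ := 2 / (1 + w)
  have t1 : 1 < t := by rw [lt_div_iff₀ (by linarith)]; linarith
  have t2 : t * t * w < 1 := by
    have : t * t * w = 4 * w / ((1 + w) * (1 + w)) := by simp only [t]; field_simp; ring
    rw [this, div_lt_one (by positivity)]; nlinarith
  have tn : ‖(t : ℂ)‖ = t := by rw [Complex.norm_real, Real.norm_of_nonneg (by linarith)]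
  have tz : (t : ℂ) ≠ 0 := by exact_mod_cast (by linarith : t ≠ 0)
  have hp' := norm_pos_iff.2 hp
  have hq' := norm_pos_iff.2 hq
  have d1 := decay P p (p * t) (by rw [norm_mul, tn]; nlinarith) _ _ h1
  have d2 := decay Q q (q * t) (by rw [norm_mul, tn]; nlinarith) _ _ h2
  have d3 := decay S r (p * t * (q * t))⁻¹ (by
    rw [norm_inv, ← one_div, lt_div_iff₀ (norm_pos_iff.2 (by simp [hp, hq, tz]))]
    simp only [norm_mul, tn] at hw ⊢
    rw [hw] at t2; linarith) _ _ h3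
  simp only [act_ten]
  refine tendsto_pi_nhds.2 fun i => tendsto_pi_nhds.2 fun k => tendsto_pi_nhds.2 fun l => ?_
  have := ((tendsto_pi_nhds.1 d1 i).mul (tendsto_pi_nhds.1 d2 k)).mul (tendsto_pi_nhds.1 d3 l)
  simp only [Pi.zero_apply, mul_zero] at this
  refine Tendsto.congr (fun j => ?_) this
  simp only [Pi.smul_apply, smul_eq_mul, ten, Matrix.smul_apply, vecMulVec_apply, inv_inv, inv_pow,
    mul_pow]
  field_simp

lemma act_diag {m n : ℕ} {P : Matrix (Fin m) (Fin m) ℂ} {Q S : Matrix (Fin n) (Fin n) ℂ}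
    (hP : P.BlockTriangular id) (hQ : Q.BlockTriangular id) (hS : S.BlockTriangular id)
    (X : Fin m → Matrix (Fin n) (Fin n) ℂ) (i : Fin m) (k l : Fin n)
    (h : ∀ j k' l', i ≤ j → k ≤ k' → l ≤ l' → X j k' l' ≠ 0 → j = i ∧ k' = k ∧ l' = l) :
    act P Q S X i k l = P i i * Q k k * S l l * X i k l := by
  have v : ∀ j k' l', ¬ (j = i ∧ k' = k ∧ l' = l) → P i j * (Q k k' * X j k' l' * S l l') = 0 := by
    intro j k' l' hn
    by_contra h0
    simp only [mul_eq_zero, not_or] at h0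
    exact hn (h j k' l' (not_lt.1 fun e => h0.1 (hP e)) (not_lt.1 fun e => h0.2.1.1 (hQ e))
      (not_lt.1 fun e => h0.2.2 (hS e)) h0.2.1.2)
  simp only [act, Matrix.sum_apply, Matrix.smul_apply, smul_eq_mul, mul_apply, transpose_apply,
    Finset.sum_mul, Finset.mul_sum]
  rw [Finset.sum_eq_single i (fun j _ hj => Finset.sum_eq_zero fun l' _ =>
      Finset.sum_eq_zero fun k' _ => v _ _ _ fun e => hj e.1) (by simp),
    Finset.sum_eq_single l (fun l' _ hl => Finset.sum_eq_zero fun k' _ =>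
      v _ _ _ fun e => hl e.2.2) (by simp),
    Finset.sum_eq_single k (fun k' _ hk => v _ _ _ fun e => hk e.2.1) (by simp)]
  ring

def wt (n i k l : ℕ) : ℂ :=
  if i = 0 ∧ k = 1 ∧ l = n + 2 then 1 else if i = 1 ∧ k = 0 ∧ l = n + 2 then -1 else
  if i = 1 ∧ k = 2 ∧ l = n then 1 else if i = 2 ∧ k = 1 ∧ l = n then -1 else
  if i = 2 ∧ k = 0 ∧ l = n + 1 then 1 else if i = 0 ∧ k = 2 ∧ l = n + 1 then -1 else
  if i = 2 ∧ 3 ≤ k ∧ l + k = n + 2 then 1 else 0

def X0 (m n : ℕ) : Fin (m + 3) → Matrix (Fin (n + 3)) (Fin (n + 3)) ℂ :=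
  fun i => of fun k l => wt n i k l

lemma wt_supp {n i k l : ℕ} (h : wt n i k l ≠ 0) :
    (k < 3 ∧ i < 3 ∧ n ≤ l ∧ i + k + l = n + 3) ∨ (3 ≤ k ∧ i = 2 ∧ l + k = n + 2) := by
  unfold wt at h
  split_ifs at h <;> first | omega | exact absurd rfl h

lemma wt_one (n k : ℕ) (hk : k < n + 3) :
    wt n (if k = 1 then 0 else if k = 2 then 1 else 2) k
      (if k = 0 then n + 1 else if k = 1 then n + 2 else n + 2 - k) = 1 := by
  match k, hk with
  | 0, _ => simp [wt]
  | 1, _ => simp [wt]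
  | 2, _ => simp [wt]
  | k + 3, hk =>
    have : n - (k + 1) + (k + 3) = n + 2 := by omega
    simp [wt, this]

lemma X0_sing (m n : ℕ) : X0 m n ∈ Sing (Fin (m + 3)) (Fin (n + 3)) := by
  intro c
  let v : Fin (n + 3) → ℂ := Fin.cons (c 0) (Fin.cons (c 1) (Fin.cons (c 2) 0))
  have hz : ∀ (i : Fin m) (k l : ℕ), wt n (i + 1 + 1 + 1) k l = 0 := fun i k l => by
    by_contra h; have := wt_supp h; omega
  by_cases hv : v = 0
  · have h0 : c 0 = 0 := congrFun hv 0
    have h1 : c 1 = 0 := congrFun hv 1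
    have h2 : c 2 = 0 := congrFun hv 2
    have : ∑ i, c i • X0 m n i = 0 := by
      ext k l
      simp [Fin.sum_univ_succ, h0, h1, h2, X0, hz, Matrix.sum_apply]
    rw [this, det_zero]
  · refine exists_vecMul_eq_zero_iff.1 ⟨v, hv, ?_⟩
    ext l
    simp only [vecMul, dotProduct, Fin.sum_univ_succ, v, Fin.cons_zero, Fin.cons_succ,
      Pi.zero_apply, zero_mul, Finset.sum_const_zero, Matrix.add_apply, Matrix.smul_apply, X0,
      of_apply, Matrix.sum_apply, Fin.val_succ, hz, smul_eq_mul, mul_zero, Fin.val_zero,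
      Fin.succ_zero_eq_one, Fin.succ_one_eq_two]
    simp only [wt]
    by_cases a0 : (l : ℕ) = n
    · simp [a0]; ring
    by_cases a1 : (l : ℕ) = n + 1
    · simp [a1]; ring
    by_cases a2 : (l : ℕ) = n + 2
    · simp [a2]; ring
    simp [a0, a1, a2]

theorem tri_main {m n : ℕ} {P : Matrix (Fin (m + 3)) (Fin (m + 3)) ℂ}
    {Q S : Matrix (Fin (n + 3)) (Fin (n + 3)) ℂ}
    (hP : P.BlockTriangular id) (hQ : Q.BlockTriangular id) (hS : S.BlockTriangular id)
    (uP : IsUnit P) (uQ : IsUnit Q) (h : ∀ i k l, ‖act P Q S (X0 m n) i k l‖ < 1) :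
    ∃ Y ∉ Sing (Fin (m + 3)) (Fin (n + 3)),
      Tendsto (fun j => act (P ^ j) (Q ^ j) (S ^ j) Y) atTop (𝓝 0) := by
  have dg : ∀ {n : ℕ} {M : Matrix (Fin n) (Fin n) ℂ}, M.BlockTriangular id → IsUnit M →
      ∀ k, M k k ≠ 0 := by
    intro n M hM u k
    have := ((isUnit_iff_isUnit_det _).1 u).ne_zero
    rw [det_of_upperTriangular hM] at this
    exact Finset.prod_ne_zero_iff.1 this k (Finset.mem_univ _)
  let s : Fin (n + 3) → Fin (n + 3) := fun k =>
    ⟨if (k : ℕ) = 0 then n + 1 else if (k : ℕ) = 1 then n + 2 else n + 2 - k, by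
      split_ifs <;> omega⟩
  have hs : Function.Injective s := fun a b e => by
    have h1 := congrArg Fin.val e
    simp only [s] at h1
    have := a.2; have := b.2
    ext; split_ifs at h1 <;> omega
  let σ : Equiv.Perm (Fin (n + 3)) := Equiv.ofBijective s (Finite.injective_iff_bijective.1 hs)
  obtain ⟨i0, -, hi0⟩ := Finset.exists_min_image Finset.univ (fun i => ‖P i i‖) ⟨0, Finset.mem_univ _⟩
  have hk : ∀ k, ‖P i0 i0 * Q k k * S (σ k) (σ k)‖ < 1 := by
    intro k
    let i : Fin (m + 3) := ⟨if (k : ℕ) = 1 then 0 else if (k : ℕ) = 2 then 1 else 2, by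
      split_ifs <;> omega⟩
    have hk2 := k.2
    have e1 : X0 m n i k (σ k) = 1 := by
      change wt n (if (k : ℕ) = 1 then 0 else if (k : ℕ) = 2 then 1 else 2) k
        (if (k : ℕ) = 0 then n + 1 else if (k : ℕ) = 1 then n + 2 else n + 2 - k) = 1
      exact wt_one n k hk2
    have := h i k (σ k)
    rw [act_diag hP hQ hS _ _ _ _ (fun j k' l' a b c d => by
      have s1 := wt_supp (n := n) (i := j) (k := k') (l := l') d
      have s2 := wt_supp (n := n) (i := i) (k := k) (l := σ k) (by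
        have : wt n i k (σ k) = 1 := e1
        rw [this]; exact one_ne_zero)
      rw [Fin.le_def] at a b c
      simp only [Fin.ext_iff]; omega), e1, mul_one] at this
    refine lt_of_le_of_lt ?_ this
    simp only [norm_mul]
    gcongr
    exact hi0 i (Finset.mem_univ _)
  obtain ⟨c, c1, -, N1, c3⟩ := geneig hP i0
  choose x x1 x2 N2 x3 using geneig hQ
  choose y y1 y2 N3 y3 using geneig hS
  refine ⟨∑ k, ten c (x k) (y (σ k)), fun hY => ?_, ?_⟩
  · have h1 := hY (Pi.single i0 1)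
    rw [Finset.sum_eq_single i0 (fun j _ hj => by simp [hj]) (by simp)] at h1
    have e : (Pi.single i0 1 : _ → ℂ) i0 • (∑ k, ten c (x k) (y (σ k))) i0 =
        (of fun a k => x k a) * ((of fun a k => y k a).submatrix id σ)ᵀ := by
      ext a b
      simp [ten, c1, Matrix.sum_apply, mul_apply, vecMulVec_apply]
    have t1 : (of fun a k => x k a : Matrix _ _ ℂ).det = 1 := by
      rw [det_of_upperTriangular (M := of fun a k => x k a) (fun a k hk => x2 k a hk)]; simp [x1]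
    have t2 : (of fun a k => y k a : Matrix _ _ ℂ).det = 1 := by
      rw [det_of_upperTriangular (M := of fun a k => y k a) (fun a k hk => y2 k a hk)]; simp [y1]
    rw [e, det_mul, det_transpose, det_permute', t1, t2] at h1
    rcases Int.units_eq_one_or (Equiv.Perm.sign σ) with h2 | h2 <;> simp [h2] at h1
  · simp only [act_sum]
    have := tendsto_finset_sum Finset.univ fun k _ =>
      ten_tendsto P Q S _ _ _ (dg hP uP i0) (dg hQ uQ k) (hk k) c3 (x3 k) (y3 (σ k))
    simpa using this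

end Pool.Agent.H.MP_296aa8_al
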